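import Mathlib
import Pool.Agent.Lib.MP_ae5b4e_an_c3.Potential

/-!
If all the other vertices of a closed polygon are points where the field of involutions is
analytic, then it is analytic at the first vertex too: the polygon is a solution of a regular
boundary value problem.
-/

noncomputable section

namespace Pool.Agent.MP_ae5b4e_an_REG

open Real Set Filter Topology Polynomial
open Pool.Agent.MP_ae5b4e_an_rat
open Pool.Agent.MP_ae5b4e_an_c3 (ct)

open scoped ContDiff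

/-- the vertices as functions of the first two vertices -/
def DirichY (κ : ℝ → ℝ) : ℕ → ℝ × ℝ → ℝ
  | 0, p => p.1
  | 1, p => p.2
  | n + 2, p => DirichY κ (n + 1) p + π -
      2 * arctan (ct (DirichY κ (n + 1) p - DirichY κ n p) + κ (DirichY κ (n + 1) p))

/-- the linearised recursion -/
def DirichE (U : ℝ → ℝ → ℝ) (κ : ℝ → ℝ) (c s a b : ℝ) : ℕ → ℝ
  | 0 => a
  | 1 => b
  | n + 2 => DirichE U κ c s a b (n + 1) - 2 / (1 + Uf U (c, (nxt U c)^[n + 1] s) ^ 2) *
      (-((1 + Uf U (c, (nxt U c)^[n] s) ^ 2) / 2) *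
        (DirichE U κ c s a b (n + 1) - DirichE U κ c s a b n) +
        deriv κ ((nxt U c)^[n + 1] s) * DirichE U κ c s a b (n + 1))

variable {U : ℝ → ℝ → ℝ} {κ : ℝ → ℝ}

theorem dirich_sin (U : ℝ → ℝ → ℝ) (c θ : ℝ) : sin ((nxt U c θ - θ) / 2) ≠ 0 := by
  have h1 := LFam.lt_nxt (U := U) c θ
  have h2 := LFam.nxt_lt (U := U) c θ
  exact (sin_pos_of_pos_of_lt_pi (by linarith) (by linarith)).ne'

theorem dirich_hasDerivAt_ct {d : ℝ} (hd : sin (d / 2) ≠ 0) :
    HasDerivAt ct (-((1 + ct d ^ 2) / 2)) d := by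
  have h1 : HasDerivAt (fun x : ℝ => x / 2) (1 / 2) d := (hasDerivAt_id d).div_const 2
  have h2 := (h1.cos.div h1.sin hd)
  have h3 : ct = fun x => cos (x / 2) / sin (x / 2) := rfl
  rw [h3]
  refine h2.congr_deriv ?_
  have h4 := sin_sq_add_cos_sq (d / 2)
  field_simp
  ring

theorem dirich_contDiffAt_ct {d : ℝ} (hd : sin (d / 2) ≠ 0) : ContDiffAt ℝ ω ct d := by
  have h3 : ct = fun x => cos (x / 2) / sin (x / 2) := rfl
  rw [h3]
  have h0 : ContDiffAt ℝ ω (fun x : ℝ => x / 2) d := contDiffAt_id.div_const 2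
  exact (contDiff_cos.contDiffAt.comp d h0).div (contDiff_sin.contDiffAt.comp d h0) hd

/-- the true orbit -/
theorem dirich_orbit (h : LFam U κ) {c : ℝ} (hc : c ∈ Ioo (0:ℝ) 1) (t : ℝ) (n : ℕ) :
    DirichY κ n (t, nxt U c t) = (nxt U c)^[n] t ∧
      DirichY κ (n + 1) (t, nxt U c t) = (nxt U c)^[n + 1] t := by
  induction n with
  | zero => exact ⟨rfl, rfl⟩
  | succ n ih =>
    refine ⟨ih.2, ?_⟩
    rw [DirichY, ih.1, ih.2, Function.iterate_succ_apply' (nxt U c) (n + 1),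
      Function.iterate_succ_apply' (nxt U c) n, Pool.Agent.MP_ae5b4e_an_c3.ct_nxt]
    have h1 := h.feq' hc ((nxt U c)^[n] t)
    have h2 : Uf U (c, (nxt U c)^[n] t) + κ (nxt U c ((nxt U c)^[n] t)) =
        U c (nxt U c ((nxt U c)^[n] t)) := by
      rw [← h1]
      unfold Uf
      ring
    rw [h2]
    rfl

theorem dirich_orbit_eq (h : LFam U κ) {c : ℝ} (hc : c ∈ Ioo (0:ℝ) 1) (t : ℝ) (n : ℕ) :
    DirichY κ n (t, nxt U c t) = (nxt U c)^[n] t := (dirich_orbit h hc t n).1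

/-- the vertices are analytic in the first two vertices -/
theorem dirich_contDiffAt (h : LFam U κ) {c : ℝ} (hc : c ∈ Ioo (0:ℝ) 1) {m : ℕ} {s : ℝ}
    (hreg : ∀ n, 0 < n → n < m → AnalyticAt ℝ κ ((nxt U c)^[n] s)) (n : ℕ) :
    (n ≤ m → ContDiffAt ℝ ω (DirichY κ n) (s, nxt U c s)) ∧
      (n + 1 ≤ m → ContDiffAt ℝ ω (DirichY κ (n + 1)) (s, nxt U c s)) := by
  induction n with
  | zero => exact ⟨fun _ => contDiffAt_fst, fun _ => contDiffAt_snd⟩
  | succ n ih =>
    refine ⟨ih.2, fun hn => ?_⟩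
    have h0 := ih.1 (by omega)
    have h1 := ih.2 (by omega)
    have hk : ContDiffAt ℝ ω κ (DirichY κ (n + 1) (s, nxt U c s)) := by
      rw [dirich_orbit_eq h hc]
      exact (hreg (n + 1) (by omega) (by omega)).contDiffAt
    have hct : ContDiffAt ℝ ω ct (DirichY κ (n + 1) (s, nxt U c s) -
        DirichY κ n (s, nxt U c s)) := by
      rw [dirich_orbit_eq h hc, dirich_orbit_eq h hc, Function.iterate_succ_apply']
      exact dirich_contDiffAt_ct (dirich_sin U c _)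
    have h2 : ContDiffAt ℝ ω (fun p => ct (DirichY κ (n + 1) p - DirichY κ n p) +
        κ (DirichY κ (n + 1) p)) (s, nxt U c s) :=
      (ContDiffAt.comp (g := ct) (f := fun p => DirichY κ (n + 1) p - DirichY κ n p)
        (s, nxt U c s) hct (h1.sub h0)).add
        (ContDiffAt.comp (g := κ) (f := fun p => DirichY κ (n + 1) p) (s, nxt U c s) hk h1)
    exact (h1.add contDiffAt_const).sub (contDiffAt_const.mul
      ((contDiff_arctan (n := ω)).contDiffAt.comp (s, nxt U c s) h2))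

theorem dirich_hasDerivAt (h : LFam U κ) {c : ℝ} (hc : c ∈ Ioo (0:ℝ) 1) {s a b τ : ℝ}
    {γ : ℝ → ℝ × ℝ} (hγ : γ τ = (s, nxt U c s)) (h1 : HasDerivAt (fun x => (γ x).1) a τ)
    (h2 : HasDerivAt (fun x => (γ x).2) b τ) (n : ℕ) :
    HasDerivAt (fun x => DirichY κ n (γ x)) (DirichE U κ c s a b n) τ ∧
      HasDerivAt (fun x => DirichY κ (n + 1) (γ x)) (DirichE U κ c s a b (n + 1)) τ := by
  induction n with
  | zero => exact ⟨h1, h2⟩
  | succ n ih =>
    refine ⟨ih.2, ?_⟩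
    have e0 : DirichY κ n (γ τ) = (nxt U c)^[n] s := by rw [hγ, dirich_orbit_eq h hc]
    have e1 : DirichY κ (n + 1) (γ τ) = nxt U c ((nxt U c)^[n] s) := by
      rw [hγ, dirich_orbit_eq h hc, Function.iterate_succ_apply']
    have hct : HasDerivAt ct (-((1 + ct (DirichY κ (n + 1) (γ τ) - DirichY κ n (γ τ)) ^ 2) / 2))
        (DirichY κ (n + 1) (γ τ) - DirichY κ n (γ τ)) := by
      refine dirich_hasDerivAt_ct ?_
      rw [e0, e1]
      exact dirich_sin U c _
    have h3 := hct.comp τ (ih.2.sub ih.1)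
    have h4 := (h.hasDerivAt_κ (DirichY κ (n + 1) (γ τ))).comp τ ih.2
    have h5 := LFam.hasDerivAt_next (f := fun x => DirichY κ (n + 1) (γ x))
      (γ := fun x => ct (DirichY κ (n + 1) (γ x) - DirichY κ n (γ x)) +
        κ (DirichY κ (n + 1) (γ x))) ih.2 (h3.add h4)
    refine h5.congr_deriv ?_
    have e2 : ct (DirichY κ (n + 1) (γ τ) - DirichY κ n (γ τ)) = Uf U (c, (nxt U c)^[n] s) := by
      rw [e0, e1, Pool.Agent.MP_ae5b4e_an_c3.ct_nxt]
    have e3 : ct (DirichY κ (n + 1) (γ τ) - DirichY κ n (γ τ)) + κ (DirichY κ (n + 1) (γ τ)) =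
        Uf U (c, (nxt U c)^[n + 1] s) := by
      rw [e2, e1, Function.iterate_succ_apply']
      have := h.feq' hc ((nxt U c)^[n] s)
      linarith
    rw [e3, e2, e1, DirichE, Function.iterate_succ_apply' (nxt U c) n]
    ring

/-- the Casoratian is constant -/
theorem dirich_caso (c s a b a' b' : ℝ) (n : ℕ) :
    (1 + Uf U (c, (nxt U c)^[n] s) ^ 2) / 2 *
      (DirichE U κ c s a b n * DirichE U κ c s a' b' (n + 1) -
        DirichE U κ c s a b (n + 1) * DirichE U κ c s a' b' n) =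
      (1 + Uf U (c, s) ^ 2) / 2 * (a * b' - b * a') := by
  induction n with
  | zero => rfl
  | succ n ih =>
    rw [← ih, DirichE, DirichE]
    have h1 : (1 + Uf U (c, (nxt U c)^[n + 1] s) ^ 2) ≠ 0 := by positivity
    field_simp
    ring

theorem dirich_iter_pos (h : LFam U κ) {c : ℝ} (hc : c ∈ Ioo (0:ℝ) 1) (s : ℝ) (n : ℕ) :
    ∃ D : ℝ, 0 < D ∧ HasDerivAt ((nxt U c)^[n]) D s := by
  induction n with
  | zero => exact ⟨1, one_pos, hasDerivAt_id s⟩
  | succ n ih =>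
    obtain ⟨D, hD, hd⟩ := ih
    have h1 := h.hasDerivAt_nxt_θ hc ((nxt U c)^[n] s)
    refine ⟨_, mul_pos ((h.pos_facts hc).1 ((nxt U c)^[n] s)) hD, ?_⟩
    rw [Function.iterate_succ']
    exact h1.comp s hd

/-- no conjugate points -/
theorem dirich_pos (h : LFam U κ) {c : ℝ} (hc : c ∈ Ioo (0:ℝ) 1) (s : ℝ) (n : ℕ) :
    0 < DirichE U κ c s 0 1 (n + 1) := by
  set b := 1 - 2 * D2 U (c, s) / (1 + Uf U (c, s) ^ 2) with hb
  have hv : ∀ n, 0 < DirichE U κ c s 1 b n := by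
    intro n
    obtain ⟨D, hD, hd⟩ := dirich_iter_pos h hc s n
    have h1 := (dirich_hasDerivAt h hc (τ := s) (γ := fun x => (x, nxt U c x)) rfl
      (hasDerivAt_id s) (h.hasDerivAt_nxt_θ hc s) n).1
    have h2 : (fun x => DirichY κ n (x, nxt U c x)) = (nxt U c)^[n] := by
      funext x
      exact dirich_orbit_eq h hc x n
    simp only [h2] at h1
    rw [h1.unique hd]
    exact hD
  induction n with
  | zero => exact one_pos
  | succ n ih =>
    have h1 := dirich_caso (U := U) (κ := κ) c s 1 b 0 1 (n + 1)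
    have h2 : 0 < (1 + Uf U (c, s) ^ 2) / 2 * (1 * 1 - b * 0) := by
      rw [mul_zero, sub_zero, mul_one]
      positivity
    rw [← h1] at h2
    have h3 := (mul_pos_iff_of_pos_left (by positivity)).1 h2
    have h4 := mul_pos (hv (n + 1 + 1)) ih
    have h5 : 0 < DirichE U κ c s 1 b (n + 1) * DirichE U κ c s 0 1 (n + 1 + 1) := by linarith
    exact (mul_pos_iff_of_pos_left (hv (n + 1))).1 h5

/-- If all the other vertices of a closed polygon are points where `κ` is analytic, then `κ` is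
analytic at the first vertex too. -/
theorem analytic_of_chain {U : ℝ → ℝ → ℝ} {κ : ℝ → ℝ} (h : LFam U κ) {c : ℝ}
    (hc : c ∈ Ioo (0:ℝ) 1) {m : ℕ} (hm : 2 ≤ m)
    (hper : ∀ θ, (nxt U c)^[m] θ = θ + 2 * π) {s : ℝ}
    (hreg : ∀ n, 0 < n → n < m → AnalyticAt ℝ κ ((nxt U c)^[n] s)) : AnalyticAt ℝ κ s := by
  set P : ℝ × ℝ := (s, nxt U c s) with hP
  have hY : ContDiffAt ℝ ω (DirichY κ m) P := (dirich_contDiffAt h hc hreg m).1 le_rfl
  set Φ : ℝ × ℝ → ℝ × ℝ := fun p => (p.1, DirichY κ m p) with hΦ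
  have hΦc : ContDiffAt ℝ ω Φ P := contDiffAt_fst.prodMk hY
  have hω : (ω : WithTop ℕ∞) ≠ 0 := by simp
  have hYd : HasFDerivAt (DirichY κ m) (fderiv ℝ (DirichY κ m) P) P :=
    (hY.differentiableAt hω).hasFDerivAt
  set L : ℝ × ℝ →L[ℝ] ℝ := fderiv ℝ (DirichY κ m) P with hL
  have hL01 : L (0, 1) ≠ 0 := by
    obtain ⟨k, rfl⟩ : ∃ k, m = k + 1 := ⟨m - 1, by omega⟩
    have h1 := (dirich_hasDerivAt h hc (s := s) (τ := nxt U c s) (γ := fun x => (s, x)) rfl
      (hasDerivAt_const _ s) (hasDerivAt_id _) k).2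
    have h2 : HasDerivAt (fun x : ℝ => ((s, x) : ℝ × ℝ)) (0, 1) (nxt U c s) :=
      (hasDerivAt_const _ s).prodMk (hasDerivAt_id _)
    have h3 := hYd.comp_hasDerivAt (nxt U c s) h2
    have h4 := h3.unique h1
    rw [h4]
    exact (dirich_pos h hc s k).ne'
  set M : ℝ × ℝ →L[ℝ] ℝ × ℝ := (ContinuousLinearMap.fst ℝ ℝ ℝ).prod L with hM
  have hΦd : HasFDerivAt Φ M P := hasFDerivAt_fst.prodMk hYd
  have hinj : Function.Injective (M : ℝ × ℝ →ₗ[ℝ] ℝ × ℝ) := by
    rw [← LinearMap.ker_eq_bot, LinearMap.ker_eq_bot']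
    intro p hp
    have h1 : p.1 = 0 := congrArg Prod.fst hp
    have h2 : L p = 0 := congrArg Prod.snd hp
    have h3 : p = p.2 • ((0, 1) : ℝ × ℝ) := by
      ext
      · simp [h1]
      · simp
    rw [h3, map_smul, smul_eq_mul] at h2
    have h4 : p.2 = 0 := (mul_eq_zero.1 h2).resolve_right hL01
    exact Prod.ext h1 h4
  set e : (ℝ × ℝ) ≃L[ℝ] (ℝ × ℝ) :=
    (LinearEquiv.ofInjectiveEndo (M : ℝ × ℝ →ₗ[ℝ] ℝ × ℝ) hinj).toContinuousLinearEquiv with he
  have heM : (e : ℝ × ℝ →L[ℝ] ℝ × ℝ) = M := by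
    ext <;> simp [he]
  have hΦd' : HasFDerivAt Φ (e : ℝ × ℝ →L[ℝ] ℝ × ℝ) P := by
    rw [heM]
    exact hΦd
  set g := hΦc.localInverse hΦd' hω with hg
  have hgs : ContDiffAt ℝ ω g (Φ P) := hΦc.to_localInverse hΦd' hω
  have hstrict : HasStrictFDerivAt Φ (e : ℝ × ℝ →L[ℝ] ℝ × ℝ) P := hΦc.hasStrictFDerivAt' hΦd' hω
  have hleft : ∀ᶠ p in 𝓝 P, g (Φ p) = p := hstrict.eventually_left_inverse
  have hΦt : ∀ t, Φ (t, nxt U c t) = (t, t + 2 * π) := by
    intro t
    simp only [hΦ, dirich_orbit_eq h hc, hper]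
  have hcont : Tendsto (fun t => ((t, nxt U c t) : ℝ × ℝ)) (𝓝 s) (𝓝 P) :=
    (continuous_id.prodMk (h.continuous_nxt hc)).tendsto s
  have hnx : nxt U c =ᶠ[𝓝 s] fun t => (g (t, t + 2 * π)).2 := by
    filter_upwards [hcont.eventually hleft] with t ht
    rw [hΦt] at ht
    rw [ht]
  have h1 : ContDiffAt ℝ ω (nxt U c) s := by
    refine ContDiffAt.congr_of_eventuallyEq ?_ hnx
    have h2 : ContDiffAt ℝ ω (fun t : ℝ => ((t, t + 2 * π) : ℝ × ℝ)) s :=
      contDiffAt_id.prodMk (contDiffAt_id.add contDiffAt_const)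
    have h3 : ContDiffAt ℝ ω g ((fun t : ℝ => ((t, t + 2 * π) : ℝ × ℝ)) s) := by
      have h4 : (fun t : ℝ => ((t, t + 2 * π) : ℝ × ℝ)) s = Φ P := (hΦt s).symm
      rw [h4]
      exact hgs
    exact (h3.comp s h2).snd
  have h2 : ContDiffAt ℝ ω (fun t => (nxt U c)^[m - 1] t) s := by
    have h3 : (fun t => (nxt U c)^[m - 1] t) = fun t => DirichY κ (m - 1) (t, nxt U c t) := by
      funext t
      rw [dirich_orbit_eq h hc]
    rw [h3]
    have h4 : ContDiffAt ℝ ω (DirichY κ (m - 1)) (s, nxt U c s) :=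
      (dirich_contDiffAt h hc hreg (m - 1)).1 (by omega)
    exact ContDiffAt.comp (g := DirichY κ (m - 1)) (f := fun t => (t, nxt U c t)) s h4
      (contDiffAt_id.prodMk h1)
  have hlast : ∀ t, nxt U c ((nxt U c)^[m - 1] t) = t + 2 * π := by
    intro t
    rw [← Function.iterate_succ_apply' (nxt U c), Nat.succ_eq_add_one,
      show m - 1 + 1 = m by omega, hper]
  have hκ : κ = fun t => ct (nxt U c t - t) - ct (t + 2 * π - (nxt U c)^[m - 1] t) := by
    funext t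
    have h3 := h.feq' hc ((nxt U c)^[m - 1] t)
    rw [hlast, h.κ_per, h.Uf_per hc] at h3
    rw [Pool.Agent.MP_ae5b4e_an_c3.ct_nxt, ← hlast t, Pool.Agent.MP_ae5b4e_an_c3.ct_nxt]
    linarith
  have h5 : ContDiffAt ℝ ω (fun t => ct (nxt U c t - t) -
      ct (t + 2 * π - (nxt U c)^[m - 1] t)) s := by
    refine ContDiffAt.sub ?_ ?_
    · exact ContDiffAt.comp (g := ct) (f := fun t => nxt U c t - t) s
        (dirich_contDiffAt_ct (dirich_sin U c s)) (h1.sub contDiffAt_id)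
    · refine ContDiffAt.comp (g := ct) (f := fun t => t + 2 * π - (nxt U c)^[m - 1] t) s
        (dirich_contDiffAt_ct ?_) ((contDiffAt_id.add contDiffAt_const).sub h2)
      rw [← hlast s]
      exact dirich_sin U c _
  rw [← hκ] at h5
  exact h5.analyticAt

end Pool.Agent.MP_ae5b4e_an_REG
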