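import Mathlib
import Pool.Agent.Lib.MP_ae5b4e_an_c3.Potential

/-!
# Exc (module RE of the project REG): a continuous algebraic function on the circle is analytic
off a finite set
-/

noncomputable section

namespace Pool.Agent.MP_ae5b4e_an_REG

open Real Set Filter Topology Polynomial
open Pool.Agent.MP_ae5b4e_an_rat
open Pool.Agent.MP_ae5b4e_an_c3 (ct)
open scoped ContDiff nonZeroDivisors

private lemma exc_bezout {G : ℝ[X][X]} (hG : G ≠ 0) :
    ∃ (P A B H : ℝ[X][X]) (c d : ℝ[X]) (N : ℕ), c ≠ 0 ∧ d ≠ 0 ∧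
      C c * P ^ N = H * G ∧ A * P + B * P.derivative = C d := by
  classical
  let K := FractionRing ℝ[X]
  have hinj : Function.Injective (algebraMap ℝ[X] K) := IsFractionRing.injective _ _
  have hinj' : Function.Injective (Polynomial.map (algebraMap ℝ[X] K)) :=
    Polynomial.map_injective _ hinj
  have hGk : G.map (algebraMap ℝ[X] K) ≠ 0 := by
    intro h
    apply hG
    apply hinj'
    rw [h, Polynomial.map_zero]
  have : CharZero K := by
    refine ⟨fun m n h => ?_⟩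
    have h1 : (algebraMap ℝ[X] K) (m : ℝ[X]) = (algebraMap ℝ[X] K) (n : ℝ[X]) := by
      simpa using h
    exact_mod_cast hinj h1
  obtain ⟨R, N, hsq, -, hdvd⟩ := exists_squarefree_dvd_pow_of_ne_zero hGk
  have hsep : R.Separable := PerfectField.separable_iff_squarefree.2 hsq
  obtain ⟨A0, B0, hAB⟩ := hsep
  obtain ⟨H0, hH⟩ := hdvd
  obtain ⟨b, hb, hP⟩ := IsLocalization.integerNormalization_spec (ℝ[X]⁰) R
  obtain ⟨a1, ha1, hA⟩ := IsLocalization.integerNormalization_spec (ℝ[X]⁰) A0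
  obtain ⟨b1, hb1, hB⟩ := IsLocalization.integerNormalization_spec (ℝ[X]⁰) B0
  obtain ⟨h1, hh1, hHH⟩ := IsLocalization.integerNormalization_spec (ℝ[X]⁰) H0
  set P := IsLocalization.integerNormalization (ℝ[X]⁰) R with hPdef
  set A := IsLocalization.integerNormalization (ℝ[X]⁰) A0 with hAdef
  set B := IsLocalization.integerNormalization (ℝ[X]⁰) B0 with hBdef
  set H := IsLocalization.integerNormalization (ℝ[X]⁰) H0 with hHdef
  have hs : ∀ (a : ℝ[X]) (Q : K[X]), a • Q = C (algebraMap ℝ[X] K a) * Q := by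
    intro a Q
    rw [← Polynomial.smul_eq_C_mul, algebraMap_smul]
  have hP' : P.map (algebraMap ℝ[X] K) = C (algebraMap ℝ[X] K b) * R := by rw [hP, hs]
  have hA' : A.map (algebraMap ℝ[X] K) = C (algebraMap ℝ[X] K a1) * A0 := by rw [hA, hs]
  have hB' : B.map (algebraMap ℝ[X] K) = C (algebraMap ℝ[X] K b1) * B0 := by rw [hB, hs]
  have hH' : H.map (algebraMap ℝ[X] K) = C (algebraMap ℝ[X] K h1) * H0 := by rw [hHH, hs]
  have hPd : P.derivative.map (algebraMap ℝ[X] K)
      = C (algebraMap ℝ[X] K b) * R.derivative := by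
    rw [← Polynomial.derivative_map, hP', Polynomial.derivative_C_mul]
  refine ⟨P, C b1 * A, C a1 * B, C (b ^ N) * H, h1, a1 * b1 * b, N,
    nonZeroDivisors.ne_zero hh1, ?_, ?_, ?_⟩
  · exact mul_ne_zero (mul_ne_zero (nonZeroDivisors.ne_zero ha1) (nonZeroDivisors.ne_zero hb1))
      (nonZeroDivisors.ne_zero hb)
  · apply hinj'
    simp only [Polynomial.map_mul, Polynomial.map_pow, Polynomial.map_C, hP', hH', mul_pow, hH,
      map_pow]
    ring
  · apply hinj'
    simp only [Polynomial.map_mul, Polynomial.map_add, Polynomial.map_C, hP', hA', hB', hPd,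
      map_mul]
    linear_combination (C (algebraMap ℝ[X] K a1) * C (algebraMap ℝ[X] K b1)
      * C (algebraMap ℝ[X] K b)) * hAB

private lemma exc_contDiff_eval {n : WithTop ℕ∞} (p : ℝ[X]) :
    ContDiff ℝ n (fun x : ℝ => p.eval x) := by
  have : (fun x : ℝ => p.eval x)
      = fun x => ∑ i ∈ Finset.range (p.natDegree + 1), p.coeff i * x ^ i := by
    funext x
    rw [Polynomial.eval_eq_sum_range]
  rw [this]
  exact ContDiff.sum fun i _ => contDiff_const.mul (contDiff_id.pow i)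

private lemma exc_evalEval_eq_sum (x y : ℝ) (Q : ℝ[X][X]) :
    evalEval x y Q = ∑ j ∈ Finset.range (Q.natDegree + 1), (Q.coeff j).eval x * y ^ j := by
  rw [← eval₂_evalRingHom, eval₂_eq_sum_range]
  simp

private lemma exc_contDiff {n : WithTop ℕ∞} (Q : ℝ[X][X]) :
    ContDiff ℝ n (fun q : ℝ × ℝ => evalEval q.1 q.2 Q) := by
  have : (fun q : ℝ × ℝ => evalEval q.1 q.2 Q)
      = fun q => ∑ j ∈ Finset.range (Q.natDegree + 1), (Q.coeff j).eval q.1 * q.2 ^ j := by
    funext q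
    rw [exc_evalEval_eq_sum]
  rw [this]
  exact ContDiff.sum fun i _ => ((exc_contDiff_eval _).comp contDiff_fst).mul (contDiff_snd.pow i)

private lemma exc_evalEval_C (x : ℝ) (y : ℝ) (p : ℝ[X]) : evalEval x y (C p) = p.eval x := by
  simp [evalEval]

private lemma exc_implicit {F : ℝ × ℝ → ℝ} {x₀ : ℝ} (hF : ContDiff ℝ ω F) (h0 : F (x₀, 0) = 0)
    {u : ℝ} (hu : u ≠ 0) (hd : HasDerivAt (fun w => F (x₀, w)) u 0)
    {w : ℝ → ℝ} (hw : ContinuousAt w x₀) (hw0 : w x₀ = 0)
    (hrel : ∀ᶠ x in 𝓝 x₀, F (x, w x) = 0) : ContDiffAt ℝ ω w x₀ := by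
  set a : ℝ × ℝ := (x₀, 0) with ha
  have hFd : HasFDerivAt F (fderiv ℝ F a) a :=
    (hF.differentiable (by simp)).differentiableAt.hasFDerivAt
  set F' := fderiv ℝ F a with hF'
  set α : ℝ := F' (1, 0) with hα
  have hβ : F' (0, 1) = u := by
    have h1 : HasDerivAt (fun w : ℝ => ((x₀, w) : ℝ × ℝ)) (0, 1) 0 :=
      (hasDerivAt_const _ _).prodMk (hasDerivAt_id _)
    have h2 : HasDerivAt (fun w : ℝ => F (x₀, w)) (F' (0, 1)) 0 :=
      HasFDerivAt.comp_hasDerivAt (0:ℝ) (by simpa [ha] using hFd) h1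
    exact h2.unique hd
  have hval : ∀ p : ℝ × ℝ, F' p = α * p.1 + u * p.2 := by
    intro p
    have : p = p.1 • ((1:ℝ), (0:ℝ)) + p.2 • ((0:ℝ), (1:ℝ)) := by
      ext <;> simp
    rw [this, map_add, map_smul, map_smul, hβ, ← hα]
    simp
    ring
  set f1 : ℝ × ℝ →L[ℝ] ℝ × ℝ := (ContinuousLinearMap.fst ℝ ℝ ℝ).prod F' with hf1
  set f2 : ℝ × ℝ →L[ℝ] ℝ × ℝ := (ContinuousLinearMap.fst ℝ ℝ ℝ).prod
    (u⁻¹ • (ContinuousLinearMap.snd ℝ ℝ ℝ - α • ContinuousLinearMap.fst ℝ ℝ ℝ)) with hf2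
  set e : (ℝ × ℝ) ≃L[ℝ] (ℝ × ℝ) := ContinuousLinearEquiv.equivOfInverse f1 f2
    (by
      intro p
      ext
      · simp [hf1, hf2]
      · simp [hf1, hf2, hval]
        field_simp)
    (by
      intro p
      ext
      · simp [hf1, hf2]
      · simp [hf1, hf2, hval]
        field_simp
        ring) with he
  set Φ : ℝ × ℝ → ℝ × ℝ := fun p => (p.1, F p) with hΦ
  have hΦc : ContDiffAt ℝ ω Φ a := contDiffAt_fst.prodMk hF.contDiffAt
  have hΦd : HasFDerivAt Φ (e : ℝ × ℝ →L[ℝ] ℝ × ℝ) a := hasFDerivAt_fst.prodMk hFd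
  have hω : (ω : WithTop ℕ∞) ≠ 0 := by simp
  set ψ := hΦc.localInverse hΦd hω with hψ
  have hψs : ContDiffAt ℝ ω ψ (Φ a) := hΦc.to_localInverse hΦd hω
  have hstrict : HasStrictFDerivAt Φ (e : ℝ × ℝ →L[ℝ] ℝ × ℝ) a := hΦc.hasStrictFDerivAt' hΦd hω
  have hleft : ∀ᶠ p in 𝓝 a, ψ (Φ p) = p := hstrict.eventually_left_inverse
  have hΦa : Φ a = (x₀, 0) := by
    ext
    · simp [hΦ, ha]
    · exact h0
  have ht : Tendsto (fun x => (x, w x)) (𝓝 x₀) (𝓝 a) := by
    have := (continuousAt_id.prodMk hw).tendsto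
    simp only [id, hw0] at this
    exact this
  have hform : w =ᶠ[𝓝 x₀] fun x => (ψ (x, 0)).2 := by
    filter_upwards [ht.eventually hleft, hrel] with x h1 h2
    have h3 : Φ (x, w x) = (x, 0) := by simp [hΦ, h2]
    rw [h3] at h1
    rw [h1]
  refine ContDiffAt.congr_of_eventuallyEq ?_ hform
  have hψ' : ContDiffAt ℝ ω ψ (x₀, 0) := by rw [← hΦa]; exact hψs
  exact contDiffAt_snd.comp x₀ (hψ'.comp x₀ (contDiffAt_id.prodMk contDiffAt_const))


/-! ### The theorem -/

private lemma exc_hasDerivAt (x₀ y₀ : ℝ) (P : ℝ[X][X]) :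
    HasDerivAt (fun w : ℝ => evalEval x₀ (y₀ + w) P) (evalEval x₀ y₀ P.derivative) 0 := by
  have h1 : ∀ (Q : ℝ[X][X]) (y : ℝ), evalEval x₀ y Q = (Q.map (evalRingHom x₀)).eval y := by
    intro Q y
    rw [← eval₂_evalRingHom, eval_map]
  have h2 : HasDerivAt (fun w : ℝ => (P.map (evalRingHom x₀)).eval (y₀ + w))
      ((P.map (evalRingHom x₀)).derivative.eval (y₀ + 0) * 1) 0 := by
    have h3 : HasDerivAt (fun w : ℝ => y₀ + w) 1 0 := (hasDerivAt_id (0:ℝ)).const_add y₀
    exact ((P.map (evalRingHom x₀)).hasDerivAt (y₀ + 0)).comp (0:ℝ) h3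
  rw [h1, ← derivative_map]
  simp only [h1]
  simpa using h2

private lemma exc_arctan {θ : ℝ} (h : cos (θ / 2) ≠ 0) :
    ∃ k : ℤ, θ = 2 * arctan (tan (θ / 2)) + 2 * π * k := by
  obtain ⟨k, hk, -⟩ := existsUnique_sub_zsmul_mem_Ico pi_pos (θ / 2) (-(π / 2))
  simp only [zsmul_eq_mul] at hk
  have h1 : cos (θ / 2 - k * π) ≠ 0 := by
    rw [cos_sub_int_mul_pi]
    exact mul_ne_zero (by
      rcases Int.even_or_odd k with hk' | hk'
      · simp [hk'.neg_one_zpow]
      · simp [hk'.neg_one_zpow]) h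
  have h2 : -(π / 2) < θ / 2 - k * π := by
    rcases lt_or_eq_of_le hk.1 with h3 | h3
    · exact h3
    · exfalso
      apply h1
      rw [← h3, cos_neg, cos_pi_div_two]
  have h3 : θ / 2 - k * π < π / 2 := by
    have := hk.2
    linarith
  refine ⟨k, ?_⟩
  have h4 : tan (θ / 2) = tan (θ / 2 - k * π) := by
    rw [tan_sub_int_mul_pi]
  rw [h4, arctan_tan h2 h3]
  ring

private lemma exc_periodic {κ : ℝ → ℝ} (hper : ∀ x, κ (x + 2 * π) = κ x) (x : ℝ) (k : ℤ) :
    κ (x + 2 * π * k) = κ x := by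
  have h : Function.Periodic κ (2 * π) := hper
  have := h.int_mul k x
  rwa [mul_comm (k : ℝ)] at this

/-- A continuous algebraic function on the circle is analytic except at finitely many points. -/
theorem finite_exc {κ : ℝ → ℝ} (hκ : Continuous κ) (hper : ∀ x, κ (x + 2 * π) = κ x)
    {G : ℝ[X][X]} (hG : G ≠ 0)
    (hrel : ∀ θ, cos (θ / 2) ≠ 0 → evalEval (tan (θ / 2)) (κ θ) G = 0) :
    ∃ E : Set ℝ, E.Finite ∧ ∀ θ, ¬ AnalyticAt ℝ κ θ → ∃ e ∈ E, ∃ k : ℤ, θ = e + 2 * π * k := by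
  obtain ⟨P, A, B, H, c, d, N, hc, hd, hcP, hAB⟩ := exc_bezout hG
  set g : ℝ → ℝ := fun x => κ (2 * arctan x) with hg
  have hgc : Continuous g := hκ.comp (continuous_const.mul continuous_arctan)
  have hkg : ∀ θ, cos (θ / 2) ≠ 0 → κ θ = g (tan (θ / 2)) := by
    intro θ hθ
    obtain ⟨k, hk⟩ := exc_arctan hθ
    rw [hg]
    change κ θ = κ (2 * arctan (tan (θ / 2)))
    conv_lhs => rw [hk]
    exact exc_periodic hper _ k
  have hgrel : ∀ x, evalEval x (g x) G = 0 := by
    intro x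
    have h1 : (2 * arctan x) / 2 = arctan x := by ring
    have h2 := hrel (2 * arctan x) (by rw [h1]; exact (cos_arctan_pos x).ne')
    rwa [h1, tan_arctan] at h2
  have hgP : ∀ x, c.eval x ≠ 0 → evalEval x (g x) P = 0 := by
    intro x hx
    have h3 := congrArg (evalEvalRingHom x (g x)) hcP
    simp only [map_mul, map_pow, coe_evalEvalRingHom, exc_evalEval_C, hgrel, mul_zero] at h3
    rcases mul_eq_zero.1 h3 with h4 | h4
    · exact absurd h4 hx
    · exact eq_zero_of_pow_eq_zero h4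
  have hgd : ∀ x, c.eval x ≠ 0 → d.eval x ≠ 0 → evalEval x (g x) P.derivative ≠ 0 := by
    intro x hx hx2 h0
    have h4 := congrArg (evalEvalRingHom x (g x)) hAB
    simp only [map_mul, map_add, coe_evalEvalRingHom, exc_evalEval_C, hgP x hx, h0, mul_zero,
      zero_add] at h4
    exact hx2 h4.symm
  have hga : ∀ x₀, c.eval x₀ ≠ 0 → d.eval x₀ ≠ 0 → AnalyticAt ℝ g x₀ := by
    intro x₀ h1 h2
    set w : ℝ → ℝ := fun x => g x - g x₀ with hw
    set F : ℝ × ℝ → ℝ := fun q => evalEval q.1 (g x₀ + q.2) P with hF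
    have hFc : ContDiff ℝ ω F := by
      have := (exc_contDiff (n := ω) P).comp
        (contDiff_fst.prodMk (contDiff_const.add contDiff_snd) :
          ContDiff ℝ ω (fun q : ℝ × ℝ => (q.1, g x₀ + q.2)))
      exact this
    have hwω : ContDiffAt ℝ ω w x₀ := by
      refine exc_implicit hFc ?_ (hgd x₀ h1 h2) (exc_hasDerivAt x₀ (g x₀) P) ?_ ?_ ?_
      · change evalEval x₀ (g x₀ + 0) P = 0
        rw [add_zero]
        exact hgP x₀ h1
      · exact (hgc.sub continuous_const).continuousAt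
      · exact sub_self _
      · have h3 : ∀ᶠ x in 𝓝 x₀, c.eval x ≠ 0 :=
          c.continuous.continuousAt.eventually_ne h1
        filter_upwards [h3] with x hx
        change evalEval x (g x₀ + (g x - g x₀)) P = 0
        rw [add_sub_cancel]
        exact hgP x hx
    have hgω : ContDiffAt ℝ ω g x₀ := by
      have h3 : g = fun x => w x + g x₀ := by
        funext x
        simp [hw]
      rw [h3]
      exact hwω.add contDiffAt_const
    exact hgω.analyticAt
  have hcd : c * d ≠ 0 := mul_ne_zero hc hd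
  refine ⟨{π} ∪ (fun x => 2 * arctan x) '' ((c * d).roots.toFinset : Set ℝ),
    (Set.finite_singleton _).union ((Finset.finite_toSet _).image _), ?_⟩
  intro θ hθ
  by_cases hcos : cos (θ / 2) = 0
  · obtain ⟨k, hk⟩ := cos_eq_zero_iff.1 hcos
    refine ⟨π, Or.inl rfl, k, ?_⟩
    linarith
  · obtain ⟨k, hk⟩ := exc_arctan hcos
    refine ⟨2 * arctan (tan (θ / 2)), Or.inr ⟨tan (θ / 2), ?_, rfl⟩, k, hk⟩
    by_contra hroot
    apply hθ
    have h1 : ¬ (c * d).IsRoot (tan (θ / 2)) := by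
      intro h
      apply hroot
      simp only [Finset.mem_coe, Multiset.mem_toFinset]
      exact (mem_roots hcd).2 h
    rw [IsRoot, eval_mul] at h1
    have h2 := hga (tan (θ / 2)) (left_ne_zero_of_mul h1) (right_ne_zero_of_mul h1)
    have h3 : AnalyticAt ℝ (fun x => tan (x / 2)) θ := by
      have h4 : (fun x => tan (x / 2)) = fun x => sin (x / 2) / cos (x / 2) := by
        funext x
        exact tan_eq_sin_div_cos _
      rw [h4]
      have h5 : AnalyticAt ℝ (fun x : ℝ => x / 2) θ := analyticAt_id.div_const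
      exact (analyticAt_sin.fun_comp h5).div (analyticAt_cos.fun_comp h5) hcos
    have h4 : AnalyticAt ℝ (g ∘ fun x => tan (x / 2)) θ :=
      AnalyticAt.comp_of_eq (f := fun x => tan (x / 2)) h2 h3 rfl
    refine h4.congr ?_
    have h5 : ∀ᶠ x in 𝓝 θ, cos (x / 2) ≠ 0 :=
      (continuous_cos.comp (continuous_id.div_const 2)).continuousAt.eventually_ne hcos
    filter_upwards [h5] with x hx
    exact (hkg x hx).symm

end Pool.Agent.MP_ae5b4e_an_REG
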