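import Mathlib
import Pool.Agent.Lib.MP_ae5b4e_an_c3.Potential

/-!
REG, module RB: there are arbitrarily large `m` such that no `m * τ i` is close to an integer.
-/

noncomputable section

namespace Pool.Agent.MP_ae5b4e_an_REG

open Real Set Filter Topology Polynomial
open Pool.Agent.MP_ae5b4e_an_rat
open Pool.Agent.MP_ae5b4e_an_c3 (ct)

/-- There are arbitrarily large `m` such that no `m * τ i` is close to an integer. -/
theorem good_m {ι : Type*} [Finite ι] (τ : ι → ℝ) (hτ : ∀ i, τ i ∈ Ioo (0:ℝ) 1) :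
    ∃ δ > 0, ∀ N : ℕ, ∃ m ≥ N, ∀ i, ∀ n : ℤ, δ ≤ |m * τ i - n| := by
  cases isEmpty_or_nonempty ι with
  | inl hempty => exact ⟨1, one_pos, fun N => ⟨N, le_rfl, fun i => (hempty.false i).elim⟩⟩
  | inr hne =>
    have : Fintype ι := Fintype.ofFinite ι
    obtain ⟨i₀, hi₀⟩ := Finite.exists_min fun i => min (τ i) (1 - τ i)
    obtain ⟨ε, hε⟩ : ∃ ε, ε = min (τ i₀) (1 - τ i₀) := ⟨_, rfl⟩
    have hεpos : 0 < ε := by
      rw [hε]
      exact lt_min (hτ i₀).1 (by linarith [(hτ i₀).2])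
    have hε1 : ∀ i, ε ≤ τ i := fun i => by
      rw [hε]
      exact (hi₀ i).trans (min_le_left _ _)
    have hε2 : ∀ i, ε ≤ 1 - τ i := fun i => by
      rw [hε]
      exact (hi₀ i).trans (min_le_right _ _)
    refine ⟨ε / 2, by positivity, fun N => ?_⟩
    have hc : IsCompact (Set.univ.pi fun _ : ι => Icc (0:ℝ) 1) :=
      isCompact_univ_pi fun _ => isCompact_Icc
    obtain ⟨a, -, φ, hφ, hlim⟩ := hc.tendsto_subseq
      (x := fun k : ℕ => fun i : ι => Int.fract ((k:ℝ) * τ i)) (fun k i _ =>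
        ⟨Int.fract_nonneg _, (Int.fract_lt_one _).le⟩)
    obtain ⟨K, hK⟩ := Metric.cauchySeq_iff.1 hlim.cauchySeq (ε / 2) (by positivity)
    have hd := hK (K + N) (by omega) K le_rfl
    have hφN : φ K + N ≤ φ (K + N) := by
      have := hφ.add_le_nat N K
      rwa [add_comm N, add_comm N] at this
    refine ⟨φ (K + N) - φ K + 1, by omega, fun i n => ?_⟩
    have hdi := (dist_le_pi_dist _ _ i).trans_lt hd
    simp only [Function.comp_apply, Real.dist_eq] at hdi
    have h1 : ((φ (K + N) - φ K + 1 : ℕ) : ℝ) = (φ (K + N) : ℝ) - φ K + 1 := by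
      rw [Nat.cast_add, Nat.cast_sub (by omega), Nat.cast_one]
    obtain ⟨n', hn'⟩ : ∃ n' : ℤ, n' = n - ⌊(φ (K + N) : ℝ) * τ i⌋ + ⌊(φ K : ℝ) * τ i⌋ :=
      ⟨_, rfl⟩
    have h2 : ((φ (K + N) - φ K + 1 : ℕ) : ℝ) * τ i - n = (τ i - n') +
        (Int.fract ((φ (K + N) : ℝ) * τ i) - Int.fract ((φ K : ℝ) * τ i)) := by
      have h3 := Int.floor_add_fract ((φ (K + N) : ℝ) * τ i)
      have h4 := Int.floor_add_fract ((φ K : ℝ) * τ i)
      rw [h1, hn']
      push_cast
      linear_combination h4 - h3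
    have h3 : ε ≤ |τ i - n'| := by
      rcases le_or_gt n' 0 with h | h
      · have h4 : (n' : ℝ) ≤ 0 := by exact_mod_cast h
        refine le_trans ?_ (le_abs_self _)
        linarith [hε1 i]
      · have h4 : (1:ℝ) ≤ n' := by exact_mod_cast h
        refine le_trans ?_ (neg_le_abs _)
        linarith [hε2 i]
    have h4 := abs_sub_abs_le_abs_sub (τ i - n')
      (-(Int.fract ((φ (K + N) : ℝ) * τ i) - Int.fract ((φ K : ℝ) * τ i)))
    rw [h2]
    rw [abs_neg, sub_neg_eq_add] at h4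
    linarith

end Pool.Agent.MP_ae5b4e_an_REG
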