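import Mathlib
import Pool.Agent.Lib.MP_ae5b4e_an_c3.Potential
import Pool.Agent.Lib.MP_ae5b4e_an_c3.Limit

/-!
Leaves with rotation number `1/m` near the circle (module RC of the extension REG of the project
SMOOTH, MP_ae5b4e_an).
-/

noncomputable section

namespace Pool.Agent.MP_ae5b4e_an_REG

open Real Set Filter Topology Polynomial
open Pool.Agent.MP_ae5b4e_an_rat
open Pool.Agent.MP_ae5b4e_an_c3 (ct)

/-- The leaves with rotation number `1/m` exist for large `m` and are close to the circle. -/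
theorem leaves {U : ℝ → ℝ → ℝ} {κ : ℝ → ℝ} (h : LFam U κ) {d₀ : ℝ} (hd : 0 < d₀) :
    ∃ m₀ : ℕ, ∀ m ≥ m₀, ∃ c ∈ Ioo (0:ℝ) 1, (∀ θ, nxt U c θ ≤ θ + d₀) ∧
      ∀ θ, (nxt U c)^[m] θ = θ + 2 * π := by
  have hpi : (0:ℝ) < 2 * π := by positivity
  obtain ⟨c₁, hc₁, hgap⟩ := Pool.Agent.MP_ae5b4e_an_c3.unif_small h hd
  have h3 : c₁ / 2 ∈ Ioo (0:ℝ) 1 := ⟨by linarith [hc₁.1], by linarith [hc₁.1, hc₁.2]⟩
  have hr := h.rot_pos h3
  obtain ⟨N, hN⟩ := exists_nat_gt (2 * π / rot U (c₁ / 2))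
  have hN0 : (0:ℝ) < N := lt_trans (by positivity) hN
  refine ⟨N, fun m hm => ?_⟩
  have hmN : (N:ℝ) ≤ m := by exact_mod_cast hm
  have hm0 : (0:ℝ) < m := hN0.trans_le hmN
  have hlt3 : 2 * π / m ≤ rot U (c₁ / 2) := by
    have h1 := hN.trans_le hmN
    rw [div_lt_iff₀ hr] at h1
    rw [div_le_iff₀ hm0]
    linarith
  have hm1 : (0:ℝ) < m + 1 := by linarith
  obtain ⟨c', hc', hgap'⟩ := Pool.Agent.MP_ae5b4e_an_c3.unif_small h
    (show (0:ℝ) < 2 * π / (m + 1) by positivity)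
  have hmin : 0 < min c' (c₁ / 2) := lt_min hc'.1 h3.1
  set c₂ := min c' (c₁ / 2) / 2 with hc₂
  have h20 : 0 < c₂ := by rw [hc₂]; linarith
  have h2c' : c₂ < c' := by
    have := min_le_left c' (c₁ / 2)
    rw [hc₂]
    linarith
  have h23 : c₂ ≤ c₁ / 2 := by
    have := min_le_right c' (c₁ / 2)
    rw [hc₂]
    linarith
  have h2 : c₂ ∈ Ioo (0:ℝ) 1 := ⟨h20, h2c'.trans hc'.2⟩
  have hit : ∀ i : ℕ, (nxt U c₂)^[i] 0 ≤ i * (2 * π / (m + 1)) := by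
    intro i
    induction i with
    | zero => simp
    | succ i ih =>
      rw [Function.iterate_succ_apply']
      refine (hgap' c₂ ⟨h20, h2c'⟩ _).trans ?_
      push_cast
      linarith
  have hrot2 : rot U c₂ ≤ 2 * π / m := by
    have h4 : (m:ℝ) * (2 * π / (m + 1)) < 2 * π := by
      rw [mul_div_assoc', div_lt_iff₀ hm1]
      nlinarith
    have h5 := h.strictMono_hh h2 ((hit m).trans_lt h4)
    rw [h.hh_iter h2, LFam.hh_zero, zero_add, h.hh_two_pi h2] at h5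
    rw [le_div_iff₀ hm0]
    linarith
  have hcont : ContinuousOn (rot U) (Icc c₂ (c₁ / 2)) :=
    h.continuousOn_rot.mono fun t ht => ⟨h20.trans_le ht.1, ht.2.trans_lt h3.2⟩
  obtain ⟨c, hc, hcr⟩ := intermediate_value_Icc h23 hcont ⟨hrot2, hlt3⟩
  have hcm : c ∈ Ioo (0:ℝ) 1 := ⟨h20.trans_le hc.1, hc.2.trans_lt h3.2⟩
  refine ⟨c, hcm, hgap c ⟨hcm.1, by linarith [hc.2, hc₁.1]⟩, fun θ => ?_⟩
  apply (h.strictMono_hh hcm).injective
  rw [h.hh_iter hcm, h.hh_add hcm, hcr]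
  field_simp

end Pool.Agent.MP_ae5b4e_an_REG
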