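import Mathlib
import Pool.Agent.Lib.MP_ae5b4e_an_c3.Potential

/-!
REG, module RA: the vertices of closed polygons with `m` small sides are equidistributed up to
`o(1/m)`.
-/

noncomputable section

namespace Pool.Agent.MP_ae5b4e_an_REG

open Real Set Filter Topology Polynomial
open Pool.Agent.MP_ae5b4e_an_rat
open Pool.Agent.MP_ae5b4e_an_c3 (ct)

/-- mean value inequality on a symmetric interval -/
theorem ra_mv {f f' : ℝ → ℝ} (hf : ∀ s, HasDerivAt f (f' s) s) (h0 : f 0 = 0) {r C : ℝ}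
    (hb : ∀ s, |s| ≤ r → |f' s| ≤ C) {s : ℝ} (hs : |s| ≤ r) : |f s| ≤ C * r := by
  have hr : 0 ≤ r := (abs_nonneg _).trans hs
  have hC : 0 ≤ C := (abs_nonneg _).trans (hb s hs)
  have h := Convex.norm_image_sub_le_of_norm_hasDerivWithin_le (f := f) (f' := f')
    (s := Icc (-r) r) (x := 0) (y := s) (C := C)
    (fun x _ => (hf x).hasDerivWithinAt)
    (fun x hx => by
      rw [Real.norm_eq_abs]
      exact hb x (abs_le.2 hx)) (convex_Icc _ _) ⟨by linarith, hr⟩ (abs_le.1 hs)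
  rw [h0, sub_zero, sub_zero, Real.norm_eq_abs, Real.norm_eq_abs] at h
  exact h.trans (mul_le_mul_of_nonneg_left hs hC)

theorem ra_taylor {t p p1 p2 : ℝ → ℝ} (h0 : ∀ x, HasDerivAt t (p x) x)
    (h1 : ∀ x, HasDerivAt p (p1 x) x) (h2 : ∀ x, HasDerivAt p1 (p2 x) x)
    (hu : UniformContinuous p2) : ∀ ε > 0, ∃ d₁ > 0, ∀ x d, |d| ≤ d₁ →
      |t (x + d) - t x - p x * d - p1 x * d ^ 2 / 2 - p2 x * d ^ 3 / 6| ≤ ε * |d| ^ 3 := by
  intro ε hε
  obtain ⟨δ, hδ, hd⟩ := Metric.uniformContinuous_iff.1 hu ε hε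
  refine ⟨δ / 2, by positivity, fun x d hdd => ?_⟩
  have hb : ∀ s, |s| ≤ |d| → |p2 (x + s) - p2 x| ≤ ε := fun s hs => by
    have := hd (a := x + s) (b := x) (by
      rw [Real.dist_eq, add_sub_cancel_left]
      linarith)
    rw [Real.dist_eq] at this
    exact this.le
  have hsh : ∀ (g g' : ℝ → ℝ), (∀ y, HasDerivAt g (g' y) y) → ∀ s,
      HasDerivAt (fun s => g (x + s)) (g' (x + s)) s := fun g g' hg s =>
    (hg (x + s)).comp_const_add x s
  have e2 : ∀ s, |s| ≤ |d| → |p1 (x + s) - p1 x - p2 x * s| ≤ ε * |d| := fun s hs =>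
    ra_mv (f := fun s => p1 (x + s) - p1 x - p2 x * s) (f' := fun s => p2 (x + s) - p2 x)
      (fun s => by
        have := ((hsh _ _ h2 s).sub_const (p1 x)).sub ((hasDerivAt_id s).const_mul (p2 x))
        refine this.congr_deriv ?_
        simp) (by simp) hb hs
  have e1 : ∀ s, |s| ≤ |d| → |p (x + s) - p x - p1 x * s - p2 x * s ^ 2 / 2| ≤
      ε * |d| * |d| := fun s hs =>
    ra_mv (f := fun s => p (x + s) - p x - p1 x * s - p2 x * s ^ 2 / 2)
      (f' := fun s => p1 (x + s) - p1 x - p2 x * s)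
      (fun s => by
        have := (((hsh _ _ h1 s).sub_const (p x)).sub ((hasDerivAt_id s).const_mul (p1 x))).sub
          (((hasDerivAt_pow 2 s).const_mul (p2 x)).div_const 2)
        refine this.congr_deriv ?_
        simp
        ring) (by simp) e2 hs
  have e0 := ra_mv (f := fun s => t (x + s) - t x - p x * s - p1 x * s ^ 2 / 2 - p2 x * s ^ 3 / 6)
      (f' := fun s => p (x + s) - p x - p1 x * s - p2 x * s ^ 2 / 2)
      (fun s => by
        have := ((((hsh _ _ h0 s).sub_const (t x)).sub ((hasDerivAt_id s).const_mul (p x))).sub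
          (((hasDerivAt_pow 2 s).const_mul (p1 x)).div_const 2)).sub
          (((hasDerivAt_pow 3 s).const_mul (p2 x)).div_const 6)
        refine this.congr_deriv ?_
        simp
        ring) (by simp) e1 (le_refl |d|)
  calc _ ≤ ε * |d| * |d| * |d| := e0
    _ = ε * |d| ^ 3 := by ring

theorem ra_alg {p a b d e M ε T : ℝ} (hp : 0 < p) (hM : 1 ≤ M) (ha : |a| ≤ M) (hb : |b| ≤ M)
    (he : |e| ≤ ε * d ^ 2) (hε : ε ≤ 1) (hd0 : d ≠ 0) (hd : |d| ≤ 1 / (6 * M))
    (hT : T = p * d * (1 + (a * d / 2 + b * d ^ 2 / 6 + e))) :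
    |p / T - 1 / d + a / 2 - (a ^ 2 / 4 - b / 6) * d| ≤ ε * |d| + 61 * M ^ 3 * d ^ 2 := by
  set u : ℝ := a * d / 2 + b * d ^ 2 / 6 + e with hu
  set v : ℝ := b * d ^ 2 / 6 + e with hv
  have hdp : 0 < |d| := abs_pos.2 hd0
  have hM0 : 0 < M := by linarith
  have hMd : M * |d| ≤ 1 / 6 := by
    calc M * |d| ≤ M * (1 / (6 * M)) := by gcongr
      _ = 1 / 6 := by field_simp
  have hd1 : |d| ≤ 1 := by nlinarith
  have hsq : d ^ 2 = |d| ^ 2 := (sq_abs d).symm
  have hv1 : |v| ≤ 2 * M * |d| ^ 2 := by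
    have h1 : |b * d ^ 2 / 6| ≤ M * |d| ^ 2 / 6 := by
      rw [abs_div, abs_mul, abs_of_nonneg (sq_nonneg d), abs_of_pos (by norm_num : (0:ℝ) < 6), hsq]
      gcongr
    have h2 : |e| ≤ |d| ^ 2 := by
      rw [hsq] at he
      nlinarith [sq_nonneg |d|]
    have h3 := abs_add_le (b * d ^ 2 / 6) e
    nlinarith [sq_nonneg |d|]
  have huv : u = a * d / 2 + v := by rw [hu, hv]; ring
  have had : |a * d / 2| ≤ M * |d| / 2 := by
    rw [abs_div, abs_mul, abs_of_pos (by norm_num : (0:ℝ) < 2)]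
    gcongr
  have hu1 : |u| ≤ 3 * M * |d| := by
    rw [huv]
    have h3 := abs_add_le (a * d / 2) v
    nlinarith
  have hu2 : |u| ≤ 1 / 2 := by nlinarith
  have h1u : 1 / 2 ≤ 1 + u := by linarith [(abs_le.1 hu2).1]
  have h1u0 : 1 + u ≠ 0 := by linarith
  have key : p / T - 1 / d + a / 2 - (a ^ 2 / 4 - b / 6) * d =
      (-e + v * (u + a * d / 2) - u ^ 3 / (1 + u)) / d := by
    rw [hT]
    have hpd : p / (p * d * (1 + u)) = 1 / (d * (1 + u)) := by
      rw [mul_assoc, div_mul_eq_div_div, div_self hp.ne']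
    rw [hpd, eq_div_iff hd0]
    have h5 : 1 / (d * (1 + u)) * d = 1 / (1 + u) := by field_simp
    have h6 : (1 : ℝ) / (1 + u) = 1 - u + u ^ 2 - u ^ 3 / (1 + u) := by
      field_simp
      ring
    have h7 : (1 / (d * (1 + u)) - 1 / d + a / 2 - (a ^ 2 / 4 - b / 6) * d) * d =
        1 / (d * (1 + u)) * d - 1 / d * d + a / 2 * d - (a ^ 2 / 4 - b / 6) * d * d := by ring
    rw [h7, h5, h6, one_div_mul_cancel hd0]
    have h8 : v = b * d ^ 2 / 6 + e := rfl
    rw [huv, h8]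
    ring
  rw [key, abs_div, div_le_iff₀ hdp]
  have b1 : |v * (u + a * d / 2)| ≤ 7 * M ^ 2 * |d| ^ 3 := by
    rw [abs_mul]
    have h3 := abs_add_le u (a * d / 2)
    have h4 : |u + a * d / 2| ≤ 7 / 2 * M * |d| := by nlinarith
    calc |v| * |u + a * d / 2| ≤ (2 * M * |d| ^ 2) * (7 / 2 * M * |d|) := by gcongr
      _ = 7 * M ^ 2 * |d| ^ 3 := by ring
  have b2 : |u ^ 3 / (1 + u)| ≤ 54 * M ^ 3 * |d| ^ 3 := by
    rw [abs_div, abs_pow, abs_of_pos (by linarith : (0:ℝ) < 1 + u), div_le_iff₀ (by linarith)]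
    have h3 : |u| ^ 3 ≤ (3 * M * |d|) ^ 3 := by gcongr
    have h4 : 0 ≤ 54 * M ^ 3 * |d| ^ 3 := by positivity
    nlinarith
  have b3 : M ^ 2 ≤ M ^ 3 := pow_le_pow_right₀ hM (by norm_num)
  have b4 : |-e + v * (u + a * d / 2) - u ^ 3 / (1 + u)| ≤
      |e| + |v * (u + a * d / 2)| + |u ^ 3 / (1 + u)| := by
    calc _ ≤ |-e + v * (u + a * d / 2)| + |u ^ 3 / (1 + u)| := abs_sub _ _
      _ ≤ |-e| + |v * (u + a * d / 2)| + |u ^ 3 / (1 + u)| := by
        gcongr
        exact abs_add_le _ _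
      _ = _ := by rw [abs_neg]
  have b5 : 0 ≤ |d| ^ 3 := by positivity
  calc _ ≤ |e| + |v * (u + a * d / 2)| + |u ^ 3 / (1 + u)| := b4
    _ ≤ ε * |d| ^ 2 + 7 * M ^ 2 * |d| ^ 3 + 54 * M ^ 3 * |d| ^ 3 := by
      rw [hsq] at he
      gcongr
    _ ≤ ε * |d| ^ 2 + 7 * M ^ 3 * |d| ^ 3 + 54 * M ^ 3 * |d| ^ 3 := by gcongr
    _ = (ε * |d| + 61 * M ^ 3 * d ^ 2) * |d| := by rw [hsq]; ring

theorem ra_ct {d : ℝ} (hd0 : d ≠ 0) (hd : |d| ≤ 1) : |ct d / 2 - 1 / d + d / 12| ≤ d ^ 2 := by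
  set z : ℝ := d / 2 with hz
  have hz0 : z ≠ 0 := by rw [hz]; positivity
  have hdz : d = 2 * z := by rw [hz]; ring
  have hz1 : |z| ≤ 1 / 2 := by
    rw [hz, abs_div, abs_of_pos (by norm_num : (0:ℝ) < 2)]
    linarith
  have hc := Real.cos_bound (x := z) (by linarith)
  have hs : |sin z - (z - z ^ 3 / 6)| ≤ |z| ^ 4 * (5 / 96) := by
    have h1 := Real.sin_bound (x := z) (by linarith)
    have h2 : |z| ^ 5 ≤ |z| ^ 4 :=
      pow_le_pow_of_le_one (abs_nonneg _) (by linarith) (by norm_num)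
    have h3 : 0 ≤ |z| ^ 4 := by positivity
    linarith
  set ec : ℝ := cos z - (1 - z ^ 2 / 2) with hec
  set es : ℝ := sin z - (z - z ^ 3 / 6) with hes
  have hcz : cos z = 1 - z ^ 2 / 2 + ec := by rw [hec]; ring
  have hsz : sin z = z - z ^ 3 / 6 + es := by rw [hes]; ring
  have hzp : 0 < |z| := abs_pos.2 hz0
  -- lower bound for the sine
  have hsin : |z| / 2 ≤ |sin z| := by
    have h1 : |z - z ^ 3 / 6| ≥ |z| - |z| ^ 3 / 6 := by
      have := abs_sub_abs_le_abs_sub z (z ^ 3 / 6)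
      have h6 : |z ^ 3 / 6| = |z| ^ 3 / 6 := by
        rw [abs_div, abs_pow, abs_of_pos (by norm_num : (0:ℝ) < 6)]
      linarith
    have h2 : |sin z| ≥ |z - z ^ 3 / 6| - |es| := by
      have := abs_sub_abs_le_abs_sub (z - z ^ 3 / 6) (-es)
      rw [abs_neg, sub_neg_eq_add, ← hsz] at this
      linarith
    have h3 : |z| ^ 3 ≤ |z| * (1 / 4) := by
      calc |z| ^ 3 = |z| * |z| ^ 2 := by ring
        _ ≤ |z| * (1 / 2) ^ 2 := by gcongr
        _ = |z| * (1 / 4) := by ring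
    have h4 : |z| ^ 4 ≤ |z| * (1 / 8) := by
      calc |z| ^ 4 = |z| * |z| ^ 3 := by ring
        _ ≤ |z| * (1 / 2) ^ 3 := by gcongr
        _ = |z| * (1 / 8) := by ring
    linarith
  have hs0 : sin z ≠ 0 := by
    intro h
    rw [h, abs_zero] at hsin
    linarith
  have key : ct d / 2 - 1 / d + d / 12 =
      (z * ec - es - z ^ 5 / 18 + z ^ 2 * es / 3) / (2 * (z * sin z)) := by
    have h1 : ct d = cos z / sin z := rfl
    rw [h1, hdz, eq_div_iff (by positivity)]
    have h2 : (cos z / sin z / 2 - 1 / (2 * z) + 2 * z / 12) * (2 * (z * sin z)) =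
        z * cos z - sin z + z ^ 2 * sin z / 3 := by
      field_simp
      ring
    rw [h2, hcz, hsz]
    ring
  rw [key, abs_div, abs_mul, abs_mul, abs_of_pos (by norm_num : (0:ℝ) < 2)]
  have hden : 0 < 2 * (|z| * |sin z|) := by
    have : 0 < |sin z| := abs_pos.2 hs0
    positivity
  rw [div_le_iff₀ hden]
  have n1 : |z * ec - es - z ^ 5 / 18 + z ^ 2 * es / 3| ≤ |z| ^ 4 := by
    have t1 : |z * ec| ≤ |z| ^ 4 * (5 / 96) := by
      rw [abs_mul]
      calc |z| * |ec| ≤ 1 * (|z| ^ 4 * (5 / 96)) := by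
            gcongr
            linarith
        _ = _ := one_mul _
    have t2 : |z ^ 5 / 18| ≤ |z| ^ 4 / 18 := by
      rw [abs_div, abs_pow, abs_of_pos (by norm_num : (0:ℝ) < 18)]
      have : |z| ^ 5 ≤ |z| ^ 4 := pow_le_pow_of_le_one (abs_nonneg _) (by linarith) (by norm_num)
      linarith
    have t3 : |z ^ 2 * es / 3| ≤ |z| ^ 4 * (5 / 96) := by
      rw [abs_div, abs_mul, abs_pow, abs_of_pos (by norm_num : (0:ℝ) < 3)]
      have h1 : |z| ^ 2 ≤ 1 := by
        calc |z| ^ 2 ≤ (1 / 2) ^ 2 := by gcongr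
          _ ≤ 1 := by norm_num
      have h2 : |z| ^ 2 * |es| ≤ 1 * (|z| ^ 4 * (5 / 96)) := by gcongr
      have h3 : 0 ≤ |z| ^ 2 * |es| := by positivity
      linarith
    have t4 : |z * ec - es - z ^ 5 / 18 + z ^ 2 * es / 3| ≤
        |z * ec| + |es| + |z ^ 5 / 18| + |z ^ 2 * es / 3| := by
      calc _ ≤ |z * ec - es - z ^ 5 / 18| + |z ^ 2 * es / 3| := abs_add_le _ _
        _ ≤ |z * ec - es| + |z ^ 5 / 18| + |z ^ 2 * es / 3| := by
          gcongr
          exact abs_sub _ _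
        _ ≤ _ := by
          gcongr
          exact abs_sub _ _
    have t5 : 0 ≤ |z| ^ 4 := by positivity
    linarith
  have n2 : d ^ 2 = 4 * |z| ^ 2 := by
    rw [sq_abs, hdz]
    ring
  calc _ ≤ |z| ^ 4 := n1
    _ ≤ 4 * |z| ^ 2 * (2 * (|z| * (|z| / 2))) := by
      have : 0 ≤ |z| ^ 4 := by positivity
      nlinarith
    _ ≤ 4 * |z| ^ 2 * (2 * (|z| * |sin z|)) := by gcongr
    _ = d ^ 2 * (2 * (|z| * |sin z|)) := by rw [n2]

/-- continuous periodic functions are uniformly continuous -/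
theorem ra_unif {f : ℝ → ℝ} (hf : Continuous f) {T : ℝ} (hT : 0 < T)
    (hp : Function.Periodic f T) : UniformContinuous f := by
  have h := (isCompact_Icc (a := -1) (b := T + 1)).uniformContinuousOn_of_continuous
    hf.continuousOn
  rw [Metric.uniformContinuousOn_iff] at h
  rw [Metric.uniformContinuous_iff]
  intro ε hε
  obtain ⟨δ, hδ, hd⟩ := h ε hε
  refine ⟨min δ 1, lt_min hδ one_pos, fun x y hxy => ?_⟩
  have h1 : dist x y < 1 := hxy.trans_le (min_le_right _ _)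
  have h2 : dist x y < δ := hxy.trans_le (min_le_left _ _)
  set n : ℤ := toIcoDiv hT 0 x with hn
  have hx : x - n • T ∈ Ico 0 (0 + T) := sub_toIcoDiv_zsmul_mem_Ico hT 0 x
  rw [zero_add] at hx
  rw [Real.dist_eq, abs_lt] at h1
  have e1 : f x = f (x - n • T) := (hp.sub_zsmul_eq n).symm
  have e2 : f y = f (y - n • T) := (hp.sub_zsmul_eq n).symm
  rw [e1, e2]
  refine hd _ ⟨by linarith [hx.1], by linarith [hx.2]⟩ _
    ⟨by linarith [hx.1], by linarith [hx.2]⟩ ?_
  rw [Real.dist_eq, sub_sub_sub_cancel_right, ← Real.dist_eq]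
  exact h2

/-- the expansion of the difference quotient -/
theorem ra_one {t p p1 p2 κ b : ℝ → ℝ} {M p0 : ℝ} (h0 : ∀ x, HasDerivAt t (p x) x)
    (h1 : ∀ x, HasDerivAt p (p1 x) x) (h2 : ∀ x, HasDerivAt p1 (p2 x) x)
    (hu : UniformContinuous p2) (hp0 : 0 < p0) (hp : ∀ x, p0 ≤ p x)
    (e1 : ∀ x, p1 x = κ x / 2 * p x) (e2 : ∀ x, p2 x = b x * p x) (hM : 1 ≤ M)
    (hκ : ∀ x, |κ x / 2| ≤ M) (hb : ∀ x, |b x| ≤ M) :
    ∀ ε > 0, ∃ d₁ > 0, ∀ x d, d ≠ 0 → |d| ≤ d₁ →
      |p x / (t (x + d) - t x) - ct d / 2 + κ x / 4 - (κ x ^ 2 / 16 - b x / 6 + 1 / 12) * d| ≤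
        ε * |d| := by
  intro ε hε
  have hM0 : 0 < M := by linarith
  set ε' : ℝ := min 1 (ε / 2) with hε'
  have hε'0 : 0 < ε' := lt_min one_pos (by positivity)
  obtain ⟨dT, hdT, hT⟩ := ra_taylor h0 h1 h2 hu (ε' * p0) (by positivity)
  have hQ : 0 < 2 * (61 * M ^ 3 + 1) := by positivity
  refine ⟨min (min dT 1) (min (1 / (6 * M)) (ε / (2 * (61 * M ^ 3 + 1)))),
    lt_min (lt_min hdT one_pos) (lt_min (by positivity) (by positivity)), fun x d hd0 hd => ?_⟩
  have k1 : |d| ≤ dT := hd.trans ((min_le_left _ _).trans (min_le_left _ _))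
  have k2 : |d| ≤ 1 := hd.trans ((min_le_left _ _).trans (min_le_right _ _))
  have k3 : |d| ≤ 1 / (6 * M) := hd.trans ((min_le_right _ _).trans (min_le_left _ _))
  have k4 : |d| ≤ ε / (2 * (61 * M ^ 3 + 1)) :=
    hd.trans ((min_le_right _ _).trans (min_le_right _ _))
  have hdp : 0 < |d| := abs_pos.2 hd0
  have hpx : 0 < p x := hp0.trans_le (hp x)
  have hTx := hT x d k1
  set R : ℝ := t (x + d) - t x - p x * d - p1 x * d ^ 2 / 2 - p2 x * d ^ 3 / 6 with hR
  set e : ℝ := R / (p x * d) with he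
  have hpd : p x * d ≠ 0 := mul_ne_zero hpx.ne' hd0
  have he1 : |e| ≤ ε' * d ^ 2 := by
    rw [he, abs_div, abs_mul, abs_of_pos hpx, div_le_iff₀ (by positivity)]
    calc |R| ≤ ε' * p0 * |d| ^ 3 := hTx
      _ ≤ ε' * p x * |d| ^ 3 := by
        have := hp x
        gcongr
      _ = ε' * d ^ 2 * (p x * |d|) := by rw [← sq_abs d]; ring
  have hTe : t (x + d) - t x = p x * d * (1 + (κ x / 2 * d / 2 + b x * d ^ 2 / 6 + e)) := by
    have h3 : p x * d * e = R := by rw [he]; field_simp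
    have h4 : p x * d * (1 + (κ x / 2 * d / 2 + b x * d ^ 2 / 6 + e)) =
        p x * d + κ x / 2 * p x * d ^ 2 / 2 + b x * p x * d ^ 3 / 6 + p x * d * e := by ring
    rw [h4, h3, hR, e1, e2]
    ring
  have hA := ra_alg hpx hM (hκ x) (hb x) he1 (min_le_left _ _) hd0 k3 hTe
  have hC := ra_ct hd0 k2
  have hε2 : ε' ≤ ε / 2 := min_le_right _ _
  have hd2 : (61 * M ^ 3 + 1) * d ^ 2 ≤ ε / 2 * |d| := by
    rw [← sq_abs d]
    have h5 : (61 * M ^ 3 + 1) * |d| ≤ ε / 2 := by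
      rw [le_div_iff₀ hQ] at k4
      linarith
    nlinarith
  have h6 : p x / (t (x + d) - t x) - ct d / 2 + κ x / 4 -
      (κ x ^ 2 / 16 - b x / 6 + 1 / 12) * d =
      (p x / (t (x + d) - t x) - 1 / d + κ x / 2 / 2 - ((κ x / 2) ^ 2 / 4 - b x / 6) * d) -
      (ct d / 2 - 1 / d + d / 12) := by ring
  rw [h6]
  calc _ ≤ _ := abs_sub _ _
    _ ≤ (ε' * |d| + 61 * M ^ 3 * d ^ 2) + d ^ 2 := add_le_add hA hC
    _ ≤ ε * |d| := by nlinarith

theorem ra_two {t p p1 p2 κ b : ℝ → ℝ} {M p0 : ℝ} (h0 : ∀ x, HasDerivAt t (p x) x)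
    (h1 : ∀ x, HasDerivAt p (p1 x) x) (h2 : ∀ x, HasDerivAt p1 (p2 x) x)
    (hu : UniformContinuous p2) (hp0 : 0 < p0) (hp : ∀ x, p0 ≤ p x)
    (e1 : ∀ x, p1 x = κ x / 2 * p x) (e2 : ∀ x, p2 x = b x * p x) (hM : 1 ≤ M)
    (hκ : ∀ x, |κ x / 2| ≤ M) (hb : ∀ x, |b x| ≤ M) :
    ∀ ε > 0, ∃ d₀ > 0, ∀ x d d', 0 < d → d ≤ d₀ → 0 < d' → d' ≤ d₀ → ct d - ct d' = κ x →
      |1 / (t (x + d) - t x) - 1 / (t x - t (x - d'))| ≤ ε * (d + d') := by
  intro ε hε
  have hM0 : 0 < M := by linarith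
  obtain ⟨d1, hd1, hone⟩ := ra_one h0 h1 h2 hu hp0 hp e1 e2 hM hκ hb (ε * p0 / 2) (by positivity)
  refine ⟨min (min d1 1) (ε * p0 / (2 * (M ^ 2 * (M + 4)))),
    lt_min (lt_min hd1 one_pos) (by positivity), fun x d d' hd hd0 hd' hd0' hct => ?_⟩
  have k1 : d ≤ d1 := hd0.trans ((min_le_left _ _).trans (min_le_left _ _))
  have k2 : d ≤ 1 := hd0.trans ((min_le_left _ _).trans (min_le_right _ _))
  have k3 : d ≤ ε * p0 / (2 * (M ^ 2 * (M + 4))) := hd0.trans (min_le_right _ _)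
  have k1' : d' ≤ d1 := hd0'.trans ((min_le_left _ _).trans (min_le_left _ _))
  have k2' : d' ≤ 1 := hd0'.trans ((min_le_left _ _).trans (min_le_right _ _))
  have hpx : 0 < p x := hp0.trans_le (hp x)
  have a1 := hone x d hd.ne' (by rwa [abs_of_pos hd])
  have a2 := hone x (-d') (neg_ne_zero.2 hd'.ne')
    (by rwa [abs_neg, abs_of_pos hd'])
  rw [abs_of_pos hd] at a1
  rw [abs_neg, abs_of_pos hd'] at a2
  have hodd : ct (-d') = -ct d' := by
    unfold Pool.Agent.MP_ae5b4e_an_c3.ct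
    rw [neg_div, cos_neg, sin_neg, div_neg]
  have hneg : p x / (t (x + -d') - t x) = -(p x / (t x - t (x - d'))) := by
    rw [← sub_eq_add_neg, ← neg_sub, div_neg]
  rw [hodd, hneg] at a2
  set δ : ℝ := t (x + d) - t x
  set δ' : ℝ := t x - t (x - d')
  set g : ℝ := κ x ^ 2 / 16 - b x / 6 + 1 / 12 with hg
  -- bound of g
  have hgM : |g| ≤ M ^ 2 := by
    have b1 : κ x ^ 2 / 16 ≤ M ^ 2 / 4 := by
      have : (κ x / 2) ^ 2 ≤ M ^ 2 := sq_le_sq' (abs_le.1 (hκ x)).1 (abs_le.1 (hκ x)).2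
      nlinarith
    have b2 := abs_le.1 (hb x)
    have b3 : 0 ≤ κ x ^ 2 / 16 := by positivity
    rw [abs_le]
    constructor <;> nlinarith
  -- the difference of the steps
  have hdd : |d - d'| ≤ (M + 4) * (d * d') := by
    have c1 := ra_ct hd.ne' (by rwa [abs_of_pos hd])
    have c2 := ra_ct hd'.ne' (by rwa [abs_of_pos hd'])
    have c3 : |1 / d - 1 / d'| ≤ M + 4 := by
      have e3 : 1 / d - 1 / d' = (κ x / 2) - (ct d / 2 - 1 / d + d / 12) +
          (ct d' / 2 - 1 / d' + d' / 12) + (d / 12 - d' / 12) := by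
        rw [← hct]
        ring
      have f1 : d ^ 2 ≤ 1 := by nlinarith
      have f2 : d' ^ 2 ≤ 1 := by nlinarith
      have g1 := abs_le.1 c1
      have g2 := abs_le.1 c2
      have g3 := abs_le.1 (hκ x)
      rw [e3, abs_le]
      constructor <;> linarith
    have c4 : d - d' = -((1 / d - 1 / d') * (d * d')) := by
      field_simp
      ring
    rw [c4, abs_neg, abs_mul, abs_of_pos (mul_pos hd hd')]
    gcongr
  have hdd2 : |d - d'| * |g| ≤ ε * p0 / 2 * (d + d') := by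
    have f3 : d * (2 * (M ^ 2 * (M + 4))) ≤ ε * p0 := (le_div_iff₀ (by positivity)).1 k3
    calc |d - d'| * |g| ≤ ((M + 4) * (d * d')) * M ^ 2 := by gcongr
      _ = d * (2 * (M ^ 2 * (M + 4))) / 2 * d' := by ring
      _ ≤ ε * p0 / 2 * d' := by gcongr
      _ ≤ ε * p0 / 2 * (d + d') := by
        gcongr
        linarith
  have hsum : |p x * (1 / δ - 1 / δ')| ≤ ε * p0 * (d + d') := by
    have e4 : p x * (1 / δ - 1 / δ') =
        (p x / δ - ct d / 2 + κ x / 4 - g * d) +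
        (-(p x / δ') - -ct d' / 2 + κ x / 4 - g * -d') + (d - d') * g := by
      have : p x * (1 / δ - 1 / δ') = p x / δ - p x / δ' := by ring
      rw [this]
      linear_combination (1 / 2 : ℝ) * hct
    rw [e4]
    calc _ ≤ |(p x / δ - ct d / 2 + κ x / 4 - g * d) +
        (-(p x / δ') - -ct d' / 2 + κ x / 4 - g * -d')| + |(d - d') * g| := abs_add_le _ _
      _ ≤ (ε * p0 / 2 * d + ε * p0 / 2 * d') + ε * p0 / 2 * (d + d') := by
        rw [abs_mul]
        gcongr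
        exact (abs_add_le _ _).trans (add_le_add a1 a2)
      _ = ε * p0 * (d + d') := by ring
  rw [abs_mul, abs_of_pos hpx] at hsum
  have h7 : p0 * |1 / δ - 1 / δ'| ≤ p0 * (ε * (d + d')) := by
    calc p0 * |1 / δ - 1 / δ'| ≤ p x * |1 / δ - 1 / δ'| := by
          have := hp x
          gcongr
      _ ≤ ε * p0 * (d + d') := hsum
      _ = p0 * (ε * (d + d')) := by ring
  exact le_of_mul_le_mul_left h7 hp0

theorem ra_sum {t : ℝ → ℝ} (ht : StrictMono t) (htp : ∀ x, t (x + 2 * π) = t x + 1) {ε : ℝ}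
    (hε : 0 < ε) (hε1 : 4 * π * ε ≤ 1) {m : ℕ} {x : ℕ → ℝ} (hm : 0 < m)
    (hx : x m = x 0 + 2 * π) (hmono : ∀ n < m, x n < x (n + 1))
    (hstep : ∀ n, n + 1 < m → |1 / (t (x (n + 2)) - t (x (n + 1))) -
      1 / (t (x (n + 1)) - t (x n))| ≤ ε * ((x (n + 2) - x (n + 1)) + (x (n + 1) - x n))) :
    ∀ n ≤ m, |t (x n) - t (x 0) - n / m| ≤ 16 * π * ε / m := by
  have hm0 : (0:ℝ) < m := by exact_mod_cast hm
  have hle : ∀ k j, j + k ≤ m → x j ≤ x (j + k) := by
    intro k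
    induction k with
    | zero => intro j _; exact le_refl _
    | succ k ih =>
      intro j hj
      exact (ih j (by omega)).trans (hmono (j + k) (by omega)).le
  have hle0 : ∀ j ≤ m, x 0 ≤ x j := fun j hj => by simpa using hle j 0 (by omega)
  have hlem : ∀ j ≤ m, x j ≤ x 0 + 2 * π := fun j hj => by
    have := hle (m - j) j (by omega)
    rwa [Nat.add_sub_cancel' hj, hx] at this
  have htm : t (x m) - t (x 0) = 1 := by rw [hx, htp]; ring
  have ht0 : ∀ j ≤ m, t (x j) - t (x 0) ≤ 1 := fun j hj => by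
    have := ht.monotone (hlem j hj)
    rw [htp] at this
    linarith
  have ht00 : ∀ j ≤ m, 0 ≤ t (x j) - t (x 0) := fun j hj => by
    have := ht.monotone (hle0 j hj)
    linarith
  have hδ : ∀ j < m, 0 < t (x (j + 1)) - t (x j) := fun j hj => by
    have := ht (hmono j hj)
    linarith
  have hA : ∀ j < m, |1 / (t (x (j + 1)) - t (x j)) - 1 / (t (x 1) - t (x 0))| ≤
      ε * ((x (j + 1) - x 1) + (x j - x 0)) := by
    intro j
    induction j with
    | zero => intro _; simp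
    | succ j ih =>
      intro hj
      have i1 := ih (by omega)
      have i2 := hstep j hj
      have i3 := abs_add_le (1 / (t (x (j + 2)) - t (x (j + 1))) - 1 / (t (x (j + 1)) - t (x j)))
        (1 / (t (x (j + 1)) - t (x j)) - 1 / (t (x 1) - t (x 0)))
      rw [sub_add_sub_cancel] at i3
      calc _ ≤ _ := i3
        _ ≤ ε * ((x (j + 2) - x (j + 1)) + (x (j + 1) - x j)) +
          ε * ((x (j + 1) - x 1) + (x j - x 0)) := add_le_add i2 i1
        _ = ε * ((x (j + 1 + 1) - x 1) + (x (j + 1) - x 0)) := by ring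
  set δ0 : ℝ := t (x 1) - t (x 0) with hδ0
  have hδ0p : 0 < δ0 := hδ 0 hm
  have hpi := Real.pi_pos
  have hB : ∀ j < m, |(t (x (j + 1)) - t (x j)) - δ0| ≤
      4 * π * ε * δ0 * (t (x (j + 1)) - t (x j)) := by
    intro j hj
    have hjp := hδ j hj
    have i1 := hA j hj
    have i2 : (x (j + 1) - x 1) + (x j - x 0) ≤ 4 * π := by
      have := hlem (j + 1) (by omega)
      have := hlem j (by omega)
      have := hle0 1 (by omega)
      linarith
    have i3 : |1 / (t (x (j + 1)) - t (x j)) - 1 / δ0| ≤ 4 * π * ε := by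
      calc _ ≤ _ := i1
        _ ≤ ε * (4 * π) := by gcongr
        _ = 4 * π * ε := by ring
    have i4 : (t (x (j + 1)) - t (x j)) - δ0 =
        -((1 / (t (x (j + 1)) - t (x j)) - 1 / δ0) * (δ0 * (t (x (j + 1)) - t (x j)))) := by
      field_simp
      ring
    rw [i4, abs_neg, abs_mul, abs_of_pos (mul_pos hδ0p hjp)]
    calc _ ≤ 4 * π * ε * (δ0 * (t (x (j + 1)) - t (x j))) := by gcongr
      _ = _ := by ring
  have hC : ∀ n ≤ m, |t (x n) - t (x 0) - n * δ0| ≤ 4 * π * ε * δ0 * (t (x n) - t (x 0)) := by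
    intro n
    induction n with
    | zero => intro _; simp
    | succ n ih =>
      intro hn
      have i1 := ih (by omega)
      have i2 := hB n (by omega)
      have i3 : t (x (n + 1)) - t (x 0) - ((n + 1 : ℕ) : ℝ) * δ0 =
          (t (x n) - t (x 0) - n * δ0) + ((t (x (n + 1)) - t (x n)) - δ0) := by
        push_cast
        ring
      rw [i3]
      calc _ ≤ _ := abs_add_le _ _
        _ ≤ 4 * π * ε * δ0 * (t (x n) - t (x 0)) +
          4 * π * ε * δ0 * (t (x (n + 1)) - t (x n)) := add_le_add i1 i2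
        _ = _ := by ring
  have hD : |1 - m * δ0| ≤ 4 * π * ε * δ0 := by
    have := hC m le_rfl
    rwa [htm, mul_one] at this
  have hδ01 : δ0 ≤ 1 := ht0 1 (by omega)
  have hmδ : m * δ0 ≤ 2 := by
    have i1 := (abs_le.1 hD).1
    nlinarith
  have hδm : δ0 ≤ 2 / m := by
    rw [le_div_iff₀ hm0]
    linarith
  intro n hn
  have hnm : (n:ℝ) ≤ m := by exact_mod_cast hn
  have hn0 : (0:ℝ) ≤ n := Nat.cast_nonneg n
  have j1 : |(n:ℝ) * δ0 - n / m| ≤ 4 * π * ε * δ0 := by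
    have i1 : (n:ℝ) * δ0 - n / m = -(n / m * (1 - m * δ0)) := by
      field_simp
      ring
    rw [i1, abs_neg, abs_mul, abs_of_nonneg (by positivity)]
    calc (n:ℝ) / m * |1 - m * δ0| ≤ 1 * (4 * π * ε * δ0) := by
          gcongr
          rw [div_le_one hm0]
          exact hnm
      _ = _ := one_mul _
  have j2 : |t (x n) - t (x 0) - n * δ0| ≤ 4 * π * ε * δ0 := by
    calc _ ≤ _ := hC n hn
      _ ≤ 4 * π * ε * δ0 * 1 := by
        gcongr
        exact ht0 n hn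
      _ = _ := mul_one _
  have j3 : t (x n) - t (x 0) - n / m =
      (t (x n) - t (x 0) - n * δ0) + ((n:ℝ) * δ0 - n / m) := by ring
  rw [j3]
  calc _ ≤ _ := abs_add_le _ _
    _ ≤ 4 * π * ε * δ0 + 4 * π * ε * δ0 := add_le_add j2 j1
    _ = 8 * π * ε * δ0 := by ring
    _ ≤ 8 * π * ε * (2 / m) := by gcongr
    _ = 16 * π * ε / m := by ring

/-- The vertices of the closed polygons with `m` vertices and small sides are, up to `o(1/m)`,
equidistributed in the coordinate `t` of the circle with `t'' / t' = κ / 2`. -/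
theorem nodes {κ : ℝ → ℝ} (hκ : ContDiff ℝ 1 κ) (hper : ∀ x, κ (x + 2 * π) = κ x)
    (hint : ∫ θ in (0)..(2 * π), κ θ = 0) :
    ∃ t : ℝ → ℝ, StrictMono t ∧ (∀ x, t (x + 2 * π) = t x + 1) ∧
      ∀ ε > 0, ∃ d₀ > 0, ∀ (m : ℕ) (x : ℕ → ℝ), 0 < m → x m = x 0 + 2 * π →
        (∀ n < m, x n < x (n + 1) ∧ x (n + 1) ≤ x n + d₀) →
        (∀ n, n + 1 < m → ct (x (n + 2) - x (n + 1)) - ct (x (n + 1) - x n) = κ (x (n + 1))) →
        ∀ n ≤ m, |t (x n) - t (x 0) - n / m| ≤ ε / m := by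
  have hκc : Continuous κ := hκ.continuous
  have hκd : ∀ x, HasDerivAt κ (deriv κ x) x := fun x =>
    (hκ.differentiable one_ne_zero x).hasDerivAt
  have hκ'c : Continuous (deriv κ) := hκ.continuous_deriv le_rfl
  have hpi := Real.pi_pos
  have hκ'p : ∀ x, deriv κ (x + 2 * π) = deriv κ x := by
    intro x
    have h1 : HasDerivAt κ (deriv κ (x + 2 * π)) x := by
      have := (hκd (x + 2 * π)).comp_add_const x (2 * π)
      have h2 : (fun y => κ (y + 2 * π)) = κ := funext hper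
      rwa [h2] at this
    exact h1.unique (hκd x)
  set K : ℝ → ℝ := fun x => ∫ y in (0)..x, κ y with hK
  have hKd : ∀ x, HasDerivAt K (κ x) x := fun x =>
    (hκc.integral_hasStrictDerivAt 0 x).hasDerivAt
  have hKp : ∀ x, K (x + 2 * π) = K x := by
    intro x
    have h1 : ∫ y in x..(x + 2 * π), κ y = 0 := by
      have h2 : Function.Periodic κ (2 * π) := hper
      rw [h2.intervalIntegral_add_eq x 0, zero_add]
      exact hint
    have h3 := intervalIntegral.integral_add_adjacent_intervals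
      (hκc.intervalIntegrable 0 x) (hκc.intervalIntegrable x (x + 2 * π)) (μ := MeasureTheory.volume)
    rw [h1, add_zero] at h3
    exact h3.symm
  set w : ℝ → ℝ := fun x => exp (K x / 2) with hw
  have hwp : ∀ x, 0 < w x := fun x => exp_pos _
  have hwd : ∀ x, HasDerivAt w (κ x / 2 * w x) x := fun x => by
    have := ((hKd x).div_const 2).exp
    refine this.congr_deriv ?_
    rw [hw]
    ring
  have hwc : Continuous w := continuous_iff_continuousAt.2 fun x => (hwd x).continuousAt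
  have hwper : ∀ x, w (x + 2 * π) = w x := fun x => by
    change exp (K (x + 2 * π) / 2) = exp (K x / 2)
    rw [hKp]
  set I : ℝ := ∫ y in (0)..(2 * π), w y with hI
  have hIp : 0 < I :=
    intervalIntegral.intervalIntegral_pos_of_pos (hwc.intervalIntegrable _ _) hwp (by positivity)
  set t : ℝ → ℝ := fun x => (∫ y in (0)..x, w y) / I with ht
  set p : ℝ → ℝ := fun x => w x / I with hp
  have hpp : ∀ x, 0 < p x := fun x => div_pos (hwp x) hIp
  have htd : ∀ x, HasDerivAt t (p x) x := fun x =>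
    (hwc.integral_hasStrictDerivAt 0 x).hasDerivAt.div_const I
  have htmono : StrictMono t := strictMono_of_hasDerivAt_pos htd hpp
  have htper : ∀ x, t (x + 2 * π) = t x + 1 := by
    intro x
    have h1 : ∫ y in x..(x + 2 * π), w y = I := by
      have h2 : Function.Periodic w (2 * π) := hwper
      rw [h2.intervalIntegral_add_eq x 0, zero_add]
    have h3 := intervalIntegral.integral_add_adjacent_intervals
      (hwc.intervalIntegrable 0 x) (hwc.intervalIntegrable x (x + 2 * π)) (μ := MeasureTheory.volume)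
    change (∫ y in (0)..(x + 2 * π), w y) / I = (∫ y in (0)..x, w y) / I + 1
    rw [← h3, h1, add_div, div_self hIp.ne']
  set b : ℝ → ℝ := fun x => deriv κ x / 2 + κ x ^ 2 / 4 with hb
  have hbc : Continuous b := (hκ'c.div_const 2).add ((hκc.pow 2).div_const 4)
  have hbp : ∀ x, b (x + 2 * π) = b x := fun x => by
    change deriv κ (x + 2 * π) / 2 + κ (x + 2 * π) ^ 2 / 4 = _
    rw [hκ'p, hper]
  have hpd : ∀ x, HasDerivAt p (κ x / 2 * p x) x := fun x => by
    refine ((hwd x).div_const I).congr_deriv ?_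
    rw [hp]
    ring
  have hp1d : ∀ x, HasDerivAt (fun x => κ x / 2 * p x) (b x * p x) x := fun x => by
    refine (((hκd x).div_const 2).mul (hpd x)).congr_deriv ?_
    rw [hb]
    ring
  have hpc : Continuous p := hwc.div_const I
  have hp2c : Continuous fun x => b x * p x := hbc.mul hpc
  have hpper : ∀ x, p (x + 2 * π) = p x := fun x => by
    change w (x + 2 * π) / I = w x / I
    rw [hwper]
  -- uniform continuity of the second derivative
  have hu : UniformContinuous fun x => b x * p x := by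
    have h2 : Function.Periodic (fun x => b x * p x) (2 * π) := fun x => by
      change b (x + 2 * π) * p (x + 2 * π) = b x * p x
      rw [hbp, hpper]
    exact ra_unif hp2c (by positivity) h2
  -- bounds
  obtain ⟨C1, hC1, hC1b⟩ := Pool.Agent.MP_ae5b4e_an_c3.exists_bound_periodic
    (f := fun x => κ x / 2) (hκc.div_const 2) (fun x => by simp only [hper])
  obtain ⟨C2, hC2, hC2b⟩ := Pool.Agent.MP_ae5b4e_an_c3.exists_bound_periodic hbc hbp
  obtain ⟨C3, hC3, hC3b⟩ := Pool.Agent.MP_ae5b4e_an_c3.exists_bound_periodic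
    (f := fun x => (p x)⁻¹) (hpc.inv₀ fun x => (hpp x).ne') (fun x => by simp only [hpper])
  have hp0 : ∀ x, (C3 + 1)⁻¹ ≤ p x := fun x => by
    have h1 := hC3b x
    rw [abs_of_pos (inv_pos.2 (hpp x))] at h1
    rw [inv_le_comm₀ (by positivity) (hpp x)]
    linarith
  refine ⟨t, htmono, htper, fun ε hε => ?_⟩
  set ε1 : ℝ := min (1 / (4 * π)) (ε / (16 * π)) with hε1
  have hε1p : 0 < ε1 := lt_min (by positivity) (by positivity)
  obtain ⟨d0, hd0, hd⟩ := ra_two (M := C1 + C2 + 1) (p0 := (C3 + 1)⁻¹) htd hpd hp1d hu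
    (by positivity) hp0 (fun x => rfl) (fun x => rfl) (by linarith)
    (fun x => (hC1b x).trans (by linarith)) (fun x => (hC2b x).trans (by linarith)) ε1 hε1p
  refine ⟨d0, hd0, fun m x hm hx hst hct n hn => ?_⟩
  have h1 : 4 * π * ε1 ≤ 1 := by
    have : ε1 ≤ 1 / (4 * π) := min_le_left _ _
    rw [le_div_iff₀ (by positivity)] at this
    linarith
  have h2 : 16 * π * ε1 ≤ ε := by
    have : ε1 ≤ ε / (16 * π) := min_le_right _ _
    rw [le_div_iff₀ (by positivity)] at this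
    linarith
  have h3 := ra_sum htmono htper hε1p h1 hm hx (fun n hn => (hst n hn).1) (fun k hk => by
    have a1 := hst k (by omega)
    have a2 := hst (k + 1) hk
    have := hd (x (k + 1)) (x (k + 2) - x (k + 1)) (x (k + 1) - x k) (by linarith [a2.1])
      (by linarith [a2.2]) (by linarith [a1.1]) (by linarith [a1.2]) (hct k hk)
    rwa [add_sub_cancel, sub_sub_cancel] at this) n hn
  refine h3.trans ?_
  gcongr

end Pool.Agent.MP_ae5b4e_an_REG
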