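import Mathlib
import Pool.Agent.Lib.MP_ae5b4e_an_c3.Potential
import Pool.Agent.Lib.MP_ae5b4e_an_REG.Nodes
import Pool.Agent.Lib.MP_ae5b4e_an_REG.GoodM
import Pool.Agent.Lib.MP_ae5b4e_an_REG.Leaves
import Pool.Agent.Lib.MP_ae5b4e_an_REG.Dirich
import Pool.Agent.Lib.MP_ae5b4e_an_REG.Exc

/-!
# MP_ae5b4e_an, regularity of the field of involutions

If a field of projective involutions along the circle has a local family of invariant curves of
class `C¹` and is real-analytic except at finitely many points, then it is real-analytic.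
-/

noncomputable section

namespace Pool.Agent.MP_ae5b4e_an_REG

open Real Set Filter Topology Polynomial
open Pool.Agent.MP_ae5b4e_an_rat
open Pool.Agent.MP_ae5b4e_an_c3 (ct)

/-- The regularity theorem. -/
theorem analytic_of_finite {U : ℝ → ℝ → ℝ} {κ : ℝ → ℝ} (h : LFam U κ) {E : Set ℝ} (hE : E.Finite)
    (hsing : ∀ θ, ¬ AnalyticAt ℝ κ θ → ∃ e ∈ E, ∃ k : ℤ, θ = e + 2 * π * k) :
    ∀ θ, AnalyticAt ℝ κ θ := by
  by_contra! hcon
  obtain ⟨s, hs⟩ := hcon
  obtain ⟨t, ht, htp, hnodes⟩ := nodes h.contDiff_κ h.κ_per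
    (Pool.Agent.MP_ae5b4e_an_c3.integral_κ h)
  have hpi : (0:ℝ) < 2 * π := by positivity
  -- representatives of the exceptional points
  set rep : ℝ → ℝ := fun e => toIocMod hpi s e with hrep
  have hrepm : ∀ e, rep e ∈ Ioc s (s + 2 * π) := fun e => toIocMod_mem_Ioc hpi s e
  have hfin : Finite {e : ℝ // e ∈ E ∧ rep e < s + 2 * π} :=
    (hE.subset fun e he => he.1).to_subtype
  have hτ : ∀ e : {e : ℝ // e ∈ E ∧ rep e < s + 2 * π}, t (rep e) - t s ∈ Ioo (0:ℝ) 1 := by
    intro e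
    have h1 := ht (hrepm e).1
    have h2 := ht e.2.2
    rw [htp] at h2
    exact ⟨by linarith, by linarith⟩
  obtain ⟨δ, hδ, hgood⟩ := good_m (fun e : {e : ℝ // e ∈ E ∧ rep e < s + 2 * π} =>
    t (rep e) - t s) hτ
  obtain ⟨d₀, hd₀, hn⟩ := hnodes (δ / 2) (by positivity)
  obtain ⟨m₀, hm₀⟩ := leaves h hd₀
  obtain ⟨m, hm, hgm⟩ := hgood (max m₀ 2)
  have hm2 : 2 ≤ m := (le_max_right _ _).trans hm
  have hmpos : (0:ℝ) < m := by positivity
  obtain ⟨c, hc, hgap, hcl⟩ := hm₀ m ((le_max_left _ _).trans hm)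
  refine hs (analytic_of_chain h hc hm2 hcl fun n hn0 hnm => ?_)
  by_contra hna
  set x : ℕ → ℝ := fun n => (nxt U c)^[n] s with hx
  have hx0 : x 0 = s := rfl
  have hstep : ∀ n, x (n + 1) = nxt U c (x n) := fun n => Function.iterate_succ_apply' _ _ _
  have hmono : StrictMono x := strictMono_nat_of_lt_succ fun n => by
    rw [hstep]; exact LFam.lt_nxt (U := U) c (x n)
  have hxm : x m = x 0 + 2 * π := hcl s
  obtain ⟨e, he, k, hk⟩ := hsing _ hna
  have hk' : x n = e + 2 * π * k := hk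
  have h1 : s < x n := by have := hmono hn0; rwa [hx0] at this
  have h2 : x n < s + 2 * π := by have := hmono hnm; rwa [hxm, hx0] at this
  have h3 : rep e = x n := by
    have h4 : rep (x n) = x n := (toIocMod_eq_self hpi).2 ⟨h1, h2.le⟩
    have h5 : rep (x n) = rep e := by
      have h6 : x n = e + k • (2 * π) := by rw [hk', zsmul_eq_mul]; ring
      rw [h6]
      exact toIocMod_add_zsmul hpi s e k
    rw [← h5, h4]
  have h4 := hgm ⟨e, he, by rw [h3]; exact h2⟩ n
  have h5 := hn m x (by omega) hxm (fun n _ => ⟨hmono n.lt_succ_self, by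
    rw [hstep]; exact hgap _⟩) (fun n _ => by
      rw [hstep (n + 1), Pool.Agent.MP_ae5b4e_an_c3.ct_nxt, hstep n,
        Pool.Agent.MP_ae5b4e_an_c3.ct_nxt]
      have := h.feq' hc (x n)
      linarith) n hnm.le
  simp only [h3] at h4
  rw [hx0] at h5
  have h6 : (m:ℝ) * (t (x n) - t s) - (n:ℤ) = m * (t (x n) - t s - n / m) := by
    push_cast
    field_simp
  rw [h6, abs_mul, abs_of_pos hmpos] at h4
  have h7 : (m:ℝ) * |t (x n) - t s - n / m| ≤ m * (δ / 2 / m) := by gcongr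
  have h8 : (m:ℝ) * (δ / 2 / m) = δ / 2 := by field_simp
  linarith

end Pool.Agent.MP_ae5b4e_an_REG
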